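import Pool.Agent.N292.PK.Pts

/-! Flat Gevrey functions at points of a circle set, and the Jensen lower bound. -/

namespace PK

open Complex Filter Topology Metric Set

lemma taylor_step {F G : ℂ → ℂ} (hF : ∀ z ∈ ball (0 : ℂ) 1, HasDerivAt F (G z) z) {ζ : ℂ}
    (hζ : ‖ζ‖ = 1) (hlim : Tendsto F (𝓝[ball 0 1] ζ) (𝓝 0)) {M : ℝ} (n : ℕ)
    (hG : ∀ z ∈ ball (0 : ℂ) 1, ‖G z‖ ≤ M * ‖z - ζ‖ ^ n / n.factorial) :
    ∀ z ∈ ball (0 : ℂ) 1, ‖F z‖ ≤ M * ‖z - ζ‖ ^ (n + 1) / (n + 1).factorial := by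
  intro z hz
  have hz' := hz
  rw [mem_ball_zero_iff] at hz
  have hne : z - ζ ≠ 0 := by
    intro h
    rw [sub_eq_zero] at h
    rw [h, hζ] at hz
    exact lt_irrefl _ hz
  have hd : 0 < ‖z - ζ‖ := norm_pos_iff.mpr hne
  have hM : 0 ≤ M := by
    have h1 := (norm_nonneg (G z)).trans (hG z hz')
    by_contra hcon
    push Not at hcon
    have : M * ‖z - ζ‖ ^ n / n.factorial < 0 := by
      apply div_neg_of_neg_of_pos
      · exact mul_neg_of_neg_of_pos hcon (by positivity)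
      · exact_mod_cast Nat.factorial_pos n
    linarith
  set p : ℝ → ℂ := fun t => ζ + (t : ℂ) * (z - ζ) with hp
  have hpn : ∀ t : ℝ, 0 ≤ t → ‖p t - ζ‖ = t * ‖z - ζ‖ := by
    intro t ht
    have : p t - ζ = (t : ℂ) * (z - ζ) := by simp [hp]
    rw [this, norm_mul, Complex.norm_real, Real.norm_of_nonneg ht]
  have hpb : ∀ t : ℝ, 0 < t → t ≤ 1 → p t ∈ ball (0 : ℂ) 1 := by
    intro t ht0 ht1
    rw [mem_ball_zero_iff]
    have e : p t = ((1 - t : ℝ) : ℂ) * ζ + (t : ℂ) * z := by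
      simp only [hp]; push_cast; ring
    rw [e]
    refine (norm_add_le _ _).trans_lt ?_
    rw [norm_mul, norm_mul, Complex.norm_real, Complex.norm_real, Real.norm_of_nonneg ht0.le,
      Real.norm_of_nonneg (by linarith), hζ]
    nlinarith
  have hpd : ∀ t : ℝ, HasDerivAt p (z - ζ) t := by
    intro t
    have h1 : HasDerivAt (fun t : ℝ => (t : ℂ)) 1 t := Complex.ofRealCLM.hasDerivAt
    have h2 := (h1.mul_const (z - ζ)).const_add ζ
    rw [one_mul] at h2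
    exact h2
  have key : ∀ s ∈ Ioo (0 : ℝ) 1,
      ‖F z‖ ≤ ‖F (p s)‖ + M * ‖z - ζ‖ ^ (n + 1) / (n + 1).factorial := by
    intro s hs
    have hfd : ∀ t ∈ Icc s 1, HasDerivAt (fun t => F (p t)) (G (p t) * (z - ζ)) t := by
      intro t ht
      exact (hF (p t) (hpb t (lt_of_lt_of_le hs.1 ht.1) ht.2)).comp t (hpd t)
    have h := image_norm_le_of_norm_deriv_right_le_deriv_boundary (f := fun t => F (p t))
      (f' := fun t => G (p t) * (z - ζ)) (a := s) (b := 1)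
      (B := fun t => ‖F (p s)‖ + M * ‖z - ζ‖ ^ (n + 1) * (t ^ (n + 1) - s ^ (n + 1)) /
        (n + 1).factorial)
      (B' := fun t => M * ‖z - ζ‖ ^ (n + 1) * t ^ n / n.factorial)
      (fun t ht => (hfd t ht).continuousAt.continuousWithinAt)
      (fun t ht => (hfd t ⟨ht.1, ht.2.le⟩).hasDerivWithinAt)
      (by simp)
      (by
        intro t
        have h1 := ((((hasDerivAt_pow (n + 1) t).sub_const (s ^ (n + 1))).const_mul
          (M * ‖z - ζ‖ ^ (n + 1))).div_const ((n + 1).factorial : ℝ)).const_add (‖F (p s)‖)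
        refine h1.congr_deriv ?_
        rw [Nat.factorial_succ]
        have h2 : ((n.factorial : ℕ) : ℝ) ≠ 0 := by exact_mod_cast (Nat.factorial_pos n).ne'
        push_cast
        field_simp)
      (by
        intro t ht
        have ht0 : 0 < t := lt_of_lt_of_le hs.1 ht.1
        have h1 := hG (p t) (hpb t ht0 ht.2.le)
        rw [hpn t ht0.le] at h1
        rw [norm_mul]
        calc ‖G (p t)‖ * ‖z - ζ‖ ≤ (M * (t * ‖z - ζ‖) ^ n / n.factorial) * ‖z - ζ‖ := by gcongr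
          _ = M * ‖z - ζ‖ ^ (n + 1) * t ^ n / n.factorial := by
            rw [mul_pow]; ring)
      (x := 1) ⟨hs.2.le, le_rfl⟩
    have hp1 : p 1 = z := by simp [hp]
    simp only [hp1] at h
    refine h.trans ?_
    have h3 : (1 : ℝ) ^ (n + 1) - s ^ (n + 1) ≤ 1 := by
      have : 0 ≤ s ^ (n + 1) := pow_nonneg hs.1.le _
      rw [one_pow]; linarith
    have h4 : M * ‖z - ζ‖ ^ (n + 1) * (1 ^ (n + 1) - s ^ (n + 1)) ≤ M * ‖z - ζ‖ ^ (n + 1) * 1 := by
      gcongr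
    rw [mul_one] at h4
    gcongr
  -- limit s → 0
  have hlim2 : Tendsto (fun s : ℝ => ‖F (p s)‖ + M * ‖z - ζ‖ ^ (n + 1) / (n + 1).factorial)
      (𝓝[>] 0) (𝓝 (0 + M * ‖z - ζ‖ ^ (n + 1) / (n + 1).factorial)) := by
    apply Tendsto.add_const
    have h1 : Tendsto p (𝓝[>] 0) (𝓝[ball 0 1] ζ) := by
      apply tendsto_nhdsWithin_of_tendsto_nhds_of_eventually_within
      · have h2 : ContinuousAt p 0 := (hpd 0).continuousAt
        have h3 : p 0 = ζ := by simp [hp]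
        have h4 := h2.tendsto
        rw [h3] at h4
        exact h4.mono_left nhdsWithin_le_nhds
      · have : Ioo (0 : ℝ) 1 ∈ 𝓝[>] (0 : ℝ) := Ioo_mem_nhdsGT (by norm_num)
        filter_upwards [this] with s hs
        exact hpb s hs.1 hs.2.le
    have h5 := (hlim.comp h1).norm
    simpa using h5
  rw [zero_add] at hlim2
  apply ge_of_tendsto hlim2
  have : Ioo (0 : ℝ) 1 ∈ 𝓝[>] (0 : ℝ) := Ioo_mem_nhdsGT (by norm_num)
  filter_upwards [this] with s hs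
  exact key s hs

/-- The Taylor-type estimate of a flat function. -/
lemma flat_bound {f : ℂ → ℂ} (hf : DifferentiableOn ℂ f (ball 0 1)) {C : ℝ}
    (hC : ∀ n : ℕ, ∀ z ∈ ball (0 : ℂ) 1,
      ‖iteratedDeriv n f z‖ ≤ C ^ (n + 1) * (n.factorial : ℝ) ^ 3)
    {ζ : ℂ} (hζ : ‖ζ‖ = 1)
    (hlim : ∀ n : ℕ, Tendsto (iteratedDeriv n f) (𝓝[ball 0 1] ζ) (𝓝 0)) (n : ℕ) :
    ∀ m : ℕ, ∀ z ∈ ball (0 : ℂ) 1, ‖iteratedDeriv m f z‖ ≤
      (C ^ (n + m + 1) * ((n + m).factorial : ℝ) ^ 3) * ‖z - ζ‖ ^ n / n.factorial := by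
  have hA : AnalyticOnNhd ℂ f (ball 0 1) := hf.analyticOnNhd isOpen_ball
  have hder : ∀ m : ℕ, ∀ z ∈ ball (0 : ℂ) 1,
      HasDerivAt (iteratedDeriv m f) (iteratedDeriv (m + 1) f z) z := by
    intro m z hz
    rw [iteratedDeriv_succ]
    have h1 : AnalyticAt ℂ (iteratedDeriv m f) z := by
      rw [iteratedDeriv_eq_iterate]
      exact hA.iterated_deriv m z hz
    exact h1.differentiableAt.hasDerivAt
  induction n with
  | zero =>
    intro m z hz
    have := hC m z hz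
    simpa using this
  | succ n ih =>
    intro m
    apply taylor_step (hder m) hζ (hlim m) n
    intro z hz
    have h1 := ih (m + 1) z hz
    have e1 : n + (m + 1) = n + 1 + m := by ring
    rw [e1] at h1
    exact h1

lemma flat_bound0 {f : ℂ → ℂ} (hf : DifferentiableOn ℂ f (ball 0 1)) {C : ℝ} (hC1 : 1 ≤ C)
    (hC : ∀ n : ℕ, ∀ z ∈ ball (0 : ℂ) 1,
      ‖iteratedDeriv n f z‖ ≤ C ^ (n + 1) * (n.factorial : ℝ) ^ 3)
    {ζ : ℂ} (hζ : ‖ζ‖ = 1)
    (hlim : ∀ n : ℕ, Tendsto (iteratedDeriv n f) (𝓝[ball 0 1] ζ) (𝓝 0)) (n : ℕ) {z : ℂ}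
    (hz : z ∈ ball (0 : ℂ) 1) : ‖f z‖ ≤ C * (C * (n : ℝ) ^ 2 * ‖z - ζ‖) ^ n := by
  have h1 := flat_bound hf hC hζ hlim n 0 z hz
  rw [iteratedDeriv_zero] at h1
  simp only [Nat.add_zero] at h1
  refine h1.trans ?_
  have hn : (0 : ℝ) < n.factorial := by exact_mod_cast Nat.factorial_pos n
  have h2 : (n.factorial : ℝ) ≤ (n : ℝ) ^ n := by exact_mod_cast Nat.factorial_le_pow n
  have h3 : C ^ (n + 1) * (n.factorial : ℝ) ^ 3 * ‖z - ζ‖ ^ n / n.factorial =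
      C ^ (n + 1) * (n.factorial : ℝ) ^ 2 * ‖z - ζ‖ ^ n := by
    field_simp
  rw [h3]
  calc C ^ (n + 1) * (n.factorial : ℝ) ^ 2 * ‖z - ζ‖ ^ n
      ≤ C ^ (n + 1) * ((n : ℝ) ^ n) ^ 2 * ‖z - ζ‖ ^ n := by gcongr
    _ = C * (C * (n : ℝ) ^ 2 * ‖z - ζ‖) ^ n := by
      rw [mul_pow, mul_pow]; ring

lemma flat_log {f : ℂ → ℂ} (hf : DifferentiableOn ℂ f (ball 0 1)) {C : ℝ} (hC1 : 1 ≤ C)
    (hC : ∀ n : ℕ, ∀ z ∈ ball (0 : ℂ) 1,
      ‖iteratedDeriv n f z‖ ≤ C ^ (n + 1) * (n.factorial : ℝ) ^ 3)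
    {ζ : ℂ} (hζ : ‖ζ‖ = 1)
    (hlim : ∀ n : ℕ, Tendsto (iteratedDeriv n f) (𝓝[ball 0 1] ζ) (𝓝 0)) {z : ℂ}
    (hz : z ∈ ball (0 : ℂ) 1) (hfz : f z ≠ 0) {d : ℝ} (hd : 0 < d) (hzd : ‖z - ζ‖ ≤ d) :
    Real.log ‖f z‖ ≤ (Real.log C + 1) - 1 / Real.sqrt (4 * C) * (1 / Real.sqrt d) := by
  have hC0 : 0 < C := by linarith
  set x : ℝ := 1 / Real.sqrt (4 * C * d) with hx
  have hx0 : 0 ≤ x := by positivity
  have hxe : 1 / Real.sqrt (4 * C) * (1 / Real.sqrt d) = x := by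
    rw [hx, Real.sqrt_mul (by positivity) d]
    field_simp
  rw [hxe]
  set n := ⌊x⌋₊ with hn
  have h1 : (n : ℝ) ≤ x := Nat.floor_le hx0
  have h2 : x < (n : ℝ) + 1 := Nat.lt_floor_add_one x
  have h3 : (n : ℝ) ^ 2 ≤ 1 / (4 * C * d) := by
    have : (n : ℝ) ^ 2 ≤ x ^ 2 := by gcongr
    refine this.trans (le_of_eq ?_)
    rw [hx, div_pow, Real.sq_sqrt (by positivity), one_pow]
  have h4 : C * (n : ℝ) ^ 2 * ‖z - ζ‖ ≤ 1 / 4 := by
    calc C * (n : ℝ) ^ 2 * ‖z - ζ‖ ≤ C * (1 / (4 * C * d)) * d := by gcongr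
      _ = 1 / 4 := by field_simp
  have h5 := flat_bound0 hf hC1 hC hζ hlim n hz
  have h6 : ‖f z‖ ≤ C * (1 / 4) ^ n := by
    refine h5.trans ?_
    gcongr
  have h7 : Real.log ‖f z‖ ≤ Real.log (C * (1 / 4) ^ n) :=
    Real.log_le_log (norm_pos_iff.mpr hfz) h6
  rw [Real.log_mul hC0.ne' (by positivity), Real.log_pow] at h7
  have h8 : Real.log (1 / 4) ≤ -1 := by
    have h9 : Real.log (1 / 4) = -(2 * Real.log 2) := by
      rw [show (1 / 4 : ℝ) = (2 ^ 2)⁻¹ by norm_num, Real.log_inv, Real.log_pow]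
      norm_num
    have := Real.log_two_gt_d9
    rw [h9]; linarith
  have h10 : (n : ℝ) * Real.log (1 / 4) ≤ (n : ℝ) * (-1) := by gcongr
  linarith

/-- Jensen's lower bound. -/
lemma jensen_lower {f : ℂ → ℂ} (hf : AnalyticOnNhd ℂ f (ball 0 1)) :
    ∃ B : ℝ, ∀ r : ℝ, 1 / 2 ≤ r → r < 1 →
      B ≤ Real.circleAverage (fun z => Real.log ‖f z‖) 0 r := by
  have h0 : (0 : ℂ) ∈ ball (0 : ℂ) 1 := by simp
  refine ⟨((meromorphicOrderAt f 0).untop₀ : ℝ) * Real.log (1 / 2) +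
    Real.log ‖meromorphicTrailingCoeffAt f 0‖, fun r hr1 hr2 => ?_⟩
  have hr0 : 0 < r := by linarith
  have habs : |r| = r := abs_of_pos hr0
  have hsub : closedBall (0 : ℂ) |r| ⊆ ball 0 1 := by
    rw [habs]; exact closedBall_subset_ball hr2
  have hA : AnalyticOnNhd ℂ f (closedBall 0 |r|) := hf.mono hsub
  rw [hA.meromorphicOn.circleAverage_log_norm hr0.ne']
  have hD0 : (MeromorphicOn.divisor f (closedBall 0 |r|)) 0 = (meromorphicOrderAt f 0).untop₀ :=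
    MeromorphicOn.divisor_apply hA.meromorphicOn (mem_closedBall_self (abs_nonneg r))
  have hDnn : 0 ≤ ((meromorphicOrderAt f 0).untop₀ : ℝ) := by
    have h1 := MeromorphicOn.AnalyticOnNhd.divisor_nonneg hA 0
    rw [hD0] at h1
    exact_mod_cast h1
  rw [hD0]
  have hnn : 0 ≤ ∑ᶠ u, ((MeromorphicOn.divisor f (closedBall 0 |r|)) u : ℝ) *
      Real.log (r * ‖(0 : ℂ) - u‖⁻¹) := by
    apply finsum_nonneg
    intro u
    by_cases hu : u ∈ closedBall (0 : ℂ) |r|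
    · by_cases hu0 : u = 0
      · subst hu0; simp
      · apply mul_nonneg
        · have := MeromorphicOn.AnalyticOnNhd.divisor_nonneg hA u
          exact_mod_cast this
        · apply Real.log_nonneg
          rw [zero_sub, norm_neg]
          have h1 : 0 < ‖u‖ := norm_pos_iff.mpr hu0
          have h2 : ‖u‖ ≤ r := by
            rw [mem_closedBall_zero_iff, habs] at hu; exact hu
          rw [← div_eq_mul_inv, le_div_iff₀ h1]
          linarith
    · have : (MeromorphicOn.divisor f (closedBall 0 |r|)) u = 0 :=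
        Function.locallyFinsuppWithin.apply_eq_zero_of_notMem _ hu
      rw [this]; simp
  have hlog : ((meromorphicOrderAt f 0).untop₀ : ℝ) * Real.log (1 / 2) ≤
      ((meromorphicOrderAt f 0).untop₀ : ℝ) * Real.log r := by
    gcongr
  linarith

end PK
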