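import Pool.Agent.N292.PK.Sum

/-! The peak function. -/

namespace PK

open Complex Filter Topology Metric

lemma K2_pos : 0 < K2 := by
  unfold K2
  have := K1_pos
  have := cc_pos
  positivity

open Classical in
/-- The peak function `V/(1+V)`, extended by `1` on `E`. -/
noncomputable def F (z : ℂ) : ℂ := if z ∈ E then 1 else 1 - (1 + V z)⁻¹

lemma V_norm_pos {z : ℂ} (hz : ‖z‖ ≤ 1) (hE : z ∉ E) : 0 < ‖V z‖ := by
  have h := V_re_nonneg hz hE
  exact lt_of_lt_of_le h (Complex.re_le_norm _)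

lemma V_le_one_add {z : ℂ} (hz : ‖z‖ ≤ 1) (hE : z ∉ E) : ‖V z‖ ≤ ‖1 + V z‖ := by
  apply le_of_sq_le_sq _ (norm_nonneg _)
  rw [← Complex.normSq_eq_norm_sq, ← Complex.normSq_eq_norm_sq, Complex.normSq_apply,
    Complex.normSq_apply]
  have := V_re_nonneg hz hE
  simp only [Complex.add_re, Complex.one_re, Complex.add_im, Complex.one_im]
  nlinarith

lemma V_lt_one_add {z : ℂ} (hz : ‖z‖ ≤ 1) (hE : z ∉ E) : ‖V z‖ < ‖1 + V z‖ := by
  apply lt_of_pow_lt_pow_left₀ 2 (norm_nonneg _)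
  rw [← Complex.normSq_eq_norm_sq, ← Complex.normSq_eq_norm_sq, Complex.normSq_apply,
    Complex.normSq_apply]
  have := V_re_nonneg hz hE
  simp only [Complex.add_re, Complex.one_re, Complex.add_im, Complex.one_im]
  nlinarith

lemma F_of_mem {z : ℂ} (hE : z ∈ E) : F z = 1 := by
  unfold F; rw [if_pos hE]

lemma F_of_notMem {z : ℂ} (hE : z ∉ E) : F z = 1 - (1 + V z)⁻¹ := by
  unfold F; rw [if_neg hE]

lemma F_lt_one {z : ℂ} (hz : ‖z‖ ≤ 1) (hE : z ∉ E) : ‖F z‖ < 1 := by
  rw [F_of_notMem hE]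
  have h1 := V_lt_one_add hz hE
  have h2 := V_norm_pos hz hE
  have h3 : 1 + V z ≠ 0 := norm_pos_iff.mp (h2.trans h1)
  have h4 : 1 - (1 + V z)⁻¹ = V z / (1 + V z) := by
    field_simp
    ring
  rw [h4, norm_div, div_lt_one (h2.trans h1)]
  exact h1

/-- The distance bound near `E`. -/
lemma inv_V_le {z e : ℂ} (hz : ‖z‖ ≤ 1) (hE : z ∉ E) (he : e ∈ E) :
    ‖V z‖⁻¹ ≤ (6 + 3 * K1) * Real.sqrt ‖z - e‖ := by
  have hV := V_norm_pos hz hE
  have hK1 := K1_pos
  set d := Real.sqrt ‖z - e‖ with hd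
  have hd0 : 0 ≤ d := Real.sqrt_nonneg _
  have hdsq : ‖z - e‖ = d ^ 2 := (Real.sq_sqrt (norm_nonneg _)).symm
  have he1 : ‖e‖ = 1 := by
    have := E_subset he
    simpa using this
  have hd2 : d ≤ 2 := by
    have h1 : ‖z - e‖ ≤ 2 := (norm_sub_le _ _).trans (by linarith)
    rw [hdsq] at h1
    nlinarith
  have hdd : d ^ 2 ≤ 2 * d := by nlinarith
  have ht := inv_t_le hz hE
  have htp := t_pos hE
  have h1 : ‖V z‖⁻¹ ≤ 2 * ‖1 - z‖ := by
    rw [inv_le_iff_one_le_mul₀ hV]
    have h2 : ‖1 - z‖ * ‖1 - z‖⁻¹ = 1 := mul_inv_cancel₀ htp.ne'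
    have h3 : ‖1 - z‖ * ‖1 - z‖⁻¹ ≤ ‖1 - z‖ * (2 * ‖V z‖) := by gcongr
    linarith
  rcases he with rfl | ⟨k, rfl⟩
  · rw [norm_sub_rev] at hdsq
    rw [hdsq] at h1
    have : 0 ≤ K1 * d := by positivity
    linarith
  · by_cases hk : ‖z - a k‖ ≤ (tau k) ^ 2
    · have h2 := ker_norm_ge (tau_pos k) (sk_re k hz) (sk_ne hE k) (by rw [norm_sk]; exact hk)
      have h3 : ‖sq (sk k z)‖ = d := by
        have h4 := norm_sq_sq (sk k z)
        rw [norm_sk, hdsq] at h4
        exact (pow_left_inj₀ (norm_nonneg _) hd0 (by norm_num)).mp h4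
      rw [h3] at h2
      have hdpos : 0 < d := by
        rw [hd]; apply Real.sqrt_pos.mpr
        rw [norm_pos_iff, sub_ne_zero]; exact ne_a hE k
      have h5 : 1 / (3 * d) ≤ K1 * ‖V z‖ := h2.trans (W_norm_le_V hz hE k)
      rw [div_le_iff₀ (by positivity)] at h5
      rw [inv_le_iff_one_le_mul₀ hV]
      have : 0 ≤ 6 * d * ‖V z‖ := by positivity
      nlinarith
    · push Not at hk
      have h2 : tau k ≤ d := by
        apply le_of_sq_le_sq _ hd0
        rw [← hdsq]; exact hk.le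
      have h3 : ‖1 - z‖ ≤ tau k + d ^ 2 := by
        have := (abs_le.mp (norm_sub_a_ge z k)).2
        rw [hdsq] at this
        linarith
      have : 0 ≤ K1 * d := by positivity
      linarith

/-- the Hölder constant of `F` -/
noncomputable def K3 : ℝ := K2 + (6 + 3 * K1)

lemma K3_pos : 0 < K3 := by
  unfold K3
  have := K1_pos
  have := K2_pos
  positivity

lemma F_sub_mem {z e : ℂ} (hz : ‖z‖ ≤ 1) (hE : z ∉ E) (he : e ∈ E) :
    ‖F z - F e‖ ≤ K3 * Real.sqrt ‖z - e‖ := by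
  rw [F_of_notMem hE, F_of_mem he]
  have h1 : 1 - (1 + V z)⁻¹ - 1 = -(1 + V z)⁻¹ := by ring
  rw [h1, norm_neg, norm_inv]
  have h2 := inv_V_le hz hE he
  have h3 : ‖1 + V z‖⁻¹ ≤ ‖V z‖⁻¹ := inv_anti₀ (V_norm_pos hz hE) (V_le_one_add hz hE)
  have h4 : 0 ≤ K2 * Real.sqrt ‖z - e‖ := mul_nonneg K2_pos.le (Real.sqrt_nonneg _)
  unfold K3
  linarith

lemma F_holder {z z' : ℂ} (hz : ‖z‖ ≤ 1) (hz' : ‖z'‖ ≤ 1) :
    ‖F z - F z'‖ ≤ K3 * Real.sqrt ‖z - z'‖ := by
  by_cases hE : z ∈ E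
  · by_cases hE' : z' ∈ E
    · rw [F_of_mem hE, F_of_mem hE', sub_self, norm_zero]
      exact mul_nonneg K3_pos.le (Real.sqrt_nonneg _)
    · rw [norm_sub_rev, norm_sub_rev z z']
      exact F_sub_mem hz' hE' hE
  · by_cases hE' : z' ∈ E
    · exact F_sub_mem hz hE hE'
    · rw [F_of_notMem hE, F_of_notMem hE']
      have h1 := V_norm_pos hz hE
      have h1' := V_norm_pos hz' hE'
      have h2 := V_le_one_add hz hE
      have h2' := V_le_one_add hz' hE'
      have h3 : 1 + V z ≠ 0 := norm_pos_iff.mp (h1.trans_le h2)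
      have h3' : 1 + V z' ≠ 0 := norm_pos_iff.mp (h1'.trans_le h2')
      have e : 1 - (1 + V z)⁻¹ - (1 - (1 + V z')⁻¹) = (V z - V z') / ((1 + V z) * (1 + V z')) := by
        field_simp
        ring
      rw [e, norm_div, norm_mul]
      rw [div_le_iff₀ (mul_pos (h1.trans_le h2) (h1'.trans_le h2'))]
      refine (V_sub hz hE hz' hE').trans ?_
      have h5 := Real.sqrt_nonneg ‖z - z'‖
      have h6 := K2_pos
      have h7 : K2 ≤ K3 := by
        unfold K3
        have := K1_pos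
        linarith
      have h8 := K3_pos
      gcongr

lemma F_continuousOn : ContinuousOn F (closedBall 0 1) := by
  intro z hz
  rw [mem_closedBall_zero_iff] at hz
  rw [ContinuousWithinAt, tendsto_iff_norm_sub_tendsto_zero]
  have h1 : Tendsto (fun w => K3 * Real.sqrt ‖w - z‖) (𝓝[closedBall 0 1] z) (𝓝 0) := by
    have h2 : Continuous (fun w : ℂ => K3 * Real.sqrt ‖w - z‖) := by fun_prop
    have h3 := h2.tendsto z
    simp only [sub_self, norm_zero, Real.sqrt_zero, mul_zero] at h3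
    exact h3.mono_left nhdsWithin_le_nhds
  refine squeeze_zero' (Eventually.of_forall fun _ => norm_nonneg _) ?_ h1
  filter_upwards [self_mem_nhdsWithin] with w hw
  rw [mem_closedBall_zero_iff] at hw
  exact F_holder hw hz

lemma notMem_E_of_lt {z : ℂ} (hz : ‖z‖ < 1) : z ∉ E := by
  intro h
  have := E_subset h
  rw [mem_sphere_zero_iff_norm] at this
  linarith

lemma V_diff {z : ℂ} (hz : ‖z‖ < 1) : DifferentiableAt ℂ V z := by
  obtain ⟨ρ, hρ1, hρ2⟩ := exists_between hz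
  have hρ0 : 0 < 1 - ρ := by linarith
  have hs : DifferentiableOn ℂ (fun w => ∑' k, W k w) (ball 0 ρ) := by
    apply differentiableOn_tsum_of_summable_norm (u := fun k => tau k * (1 - ρ)⁻¹)
      (summable_tau.mul_right _)
    · intro k w hw
      rw [mem_ball_zero_iff] at hw
      apply DifferentiableAt.differentiableWithinAt
      have h1 : DifferentiableAt ℂ (ker (tau k)) (sk k w) :=
        ker_diff (tau_pos k) (sk_re_pos k (hw.trans hρ2))
      have h2 : DifferentiableAt ℂ (sk k) w := by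
        unfold sk
        fun_prop
      exact h1.comp w h2
    · exact isOpen_ball
    · intro k w hw
      rw [mem_ball_zero_iff] at hw
      have hw1 : ‖w‖ < 1 := hw.trans hρ2
      refine (W_norm_le hw1.le (notMem_E_of_lt hw1) k).trans ?_
      rw [div_eq_mul_inv]
      have h1 : 1 - ρ ≤ ‖w - a k‖ := by
        have := norm_sub_norm_le (a k) w
        rw [norm_a, norm_sub_rev] at this
        linarith
      have := tau_pos k
      gcongr
  have h1 : DifferentiableAt ℂ (fun w => ∑' k, W k w) z :=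
    hs.differentiableAt (isOpen_ball.mem_nhds (by rwa [mem_ball_zero_iff]))
  have h2 : DifferentiableAt ℂ (fun w : ℂ => (1 - w)⁻¹) z := by
    apply DifferentiableAt.inv
    · fun_prop
    · exact sub_ne_zero.mpr (ne_one (notMem_E_of_lt hz)).symm
  exact h2.add (h1.const_mul _)

lemma F_diff : DifferentiableOn ℂ F (ball 0 1) := by
  intro z hz
  rw [mem_ball_zero_iff] at hz
  have h1 : DifferentiableAt ℂ (fun w => 1 - (1 + V w)⁻¹) z := by
    have hV := V_diff hz
    have h3 : 1 + V z ≠ 0 :=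
      norm_pos_iff.mp ((V_norm_pos hz.le (notMem_E_of_lt hz)).trans_le
        (V_le_one_add hz.le (notMem_E_of_lt hz)))
    exact (differentiableAt_const _).sub (((differentiableAt_const _).add hV).inv h3)
  refine (h1.congr_of_eventuallyEq ?_).differentiableWithinAt
  have h2 : ball (0 : ℂ) 1 ∈ 𝓝 z := isOpen_ball.mem_nhds (by rwa [mem_ball_zero_iff])
  filter_upwards [h2] with w hw
  rw [mem_ball_zero_iff] at hw
  exact F_of_notMem (notMem_E_of_lt hw)

end PK
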