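import Pool.Agent.N292.PK.Defs
import Pool.Agent.N292.PK.Gev
import Pool.Agent.N292.PK.Peak

namespace PK

open Complex Filter Topology Metric Set MeasureTheory

theorem isPeakSet_E : IsPeakSet (1 / 2) E := by
  refine ⟨isClosed_E, E_subset, F, ⟨F_diff, F_continuousOn, K3, ?_⟩, fun z hz => F_of_mem hz, ?_⟩
  · intro z hz w hw
    rw [mem_sphere_zero_iff_norm] at hz hw
    rw [← Real.sqrt_eq_rpow]
    exact F_holder hz.le hw.le
  · intro z hz hE
    rw [mem_sphere_zero_iff_norm] at hz
    exact F_lt_one hz.le hE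

lemma th_gap_pos (k : ℕ) : 0 < th k - th (k + 1) := by
  have h1 := gap_le k
  have h2 := tau_sub_ge k
  have h3 := tau_pos k
  have h4 := tau_pos (k + 1)
  have h5 := mul_pos h3 h4
  linarith

lemma ae_ne {f : ℂ → ℂ} (hA : AnalyticOnNhd ℂ f (ball 0 1)) (hne : ∃ z ∈ ball (0 : ℂ) 1, f z ≠ 0)
    {r : ℝ} (hr0 : 0 < r) (hr1 : r < 1) : ∀ᵐ θ : ℝ, f (circleMap 0 r θ) ≠ 0 := by
  have h1 : ∀ᶠ z in codiscreteWithin (ball (0 : ℂ) 1), f z ≠ 0 := by
    rcases hA.eqOn_zero_or_eventually_ne_zero_of_preconnected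
      (convex_ball (0 : ℂ) 1).isPreconnected with h | h
    · obtain ⟨z, hz, hfz⟩ := hne
      exact absurd (h hz) hfz
    · exact h
  have hsub : sphere (0 : ℂ) |r| ⊆ ball 0 1 := by
    rw [abs_of_pos hr0]
    exact sphere_subset_closedBall.trans (closedBall_subset_ball hr1)
  have h2 : ∀ᶠ z in codiscreteWithin (sphere (0 : ℂ) |r|), f z ≠ 0 :=
    codiscreteWithin_mono hsub h1
  have h3 : ∀ᶠ θ in codiscrete ℝ, f (circleMap 0 r θ) ≠ 0 :=
    (circleMap_preimage_codiscrete (c := 0) hr0.ne') h2
  have h4 := ae_restrict_le_codiscreteWithin (μ := (volume : Measure ℝ)) (U := univ)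
    MeasurableSet.univ h3
  rw [Measure.restrict_univ] at h4
  exact h4

theorem not_gevrey_E : ¬ IsGevreyZeroSet (1 / 2) E := by
  rintro ⟨f, ⟨hfd, C', hC'⟩, hne, hflat⟩
  set C : ℝ := |C'| + 1 with hCdef
  have hC1 : 1 ≤ C := by rw [hCdef]; linarith [abs_nonneg C']
  have hC : ∀ n : ℕ, ∀ z ∈ ball (0 : ℂ) 1,
      ‖iteratedDeriv n f z‖ ≤ C ^ (n + 1) * (n.factorial : ℝ) ^ 3 := by
    intro n z hz
    refine (hC' n z hz).trans ?_
    have e1 : (n.factorial : ℝ) ^ (1 + 1 / (1 / 2) : ℝ) = (n.factorial : ℝ) ^ 3 := by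
      rw [show (1 + 1 / (1 / 2) : ℝ) = ((3 : ℕ) : ℝ) by norm_num, Real.rpow_natCast]
    rw [e1]
    have e2 : C' ^ (n + 1) ≤ C ^ (n + 1) := by
      calc C' ^ (n + 1) ≤ |C' ^ (n + 1)| := le_abs_self _
        _ = |C'| ^ (n + 1) := abs_pow _ _
        _ ≤ C ^ (n + 1) := by
          apply pow_le_pow_left₀ (abs_nonneg _)
          rw [hCdef]; linarith
    gcongr
  have hA : AnalyticOnNhd ℂ f (ball 0 1) := hfd.analyticOnNhd isOpen_ball
  obtain ⟨B, hB⟩ := jensen_lower hA
  set A : ℝ := Real.log C + 1 with hAdef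
  set c : ℝ := 1 / Real.sqrt (4 * C) with hc
  have hc0 : 0 < c := by positivity
  have hAup : ∀ z ∈ ball (0 : ℂ) 1, f z ≠ 0 → Real.log ‖f z‖ ≤ A := by
    intro z hz hfz
    have h1 := hC 0 z hz
    rw [iteratedDeriv_zero] at h1
    simp only [zero_add, pow_one, Nat.factorial_zero, Nat.cast_one, one_pow, mul_one] at h1
    have h2 := Real.log_le_log (norm_pos_iff.mpr hfz) h1
    rw [hAdef]; linarith
  have hflog : ∀ k : ℕ, ∀ z ∈ ball (0 : ℂ) 1, f z ≠ 0 → ∀ d : ℝ, 0 < d → ‖z - a k‖ ≤ d →
      Real.log ‖f z‖ ≤ A - c * (1 / Real.sqrt d) := by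
    intro k z hz hfz d hd hzd
    exact flat_log hfd hC1 hC (norm_a k) (fun n => hflat n (a k) (a_mem_E k)) hz hfz hd hzd
  -- the main bound
  have main : ∀ N : ℕ, ∑ k ∈ Finset.range N, Real.sqrt (th k - th (k + 1)) ≤
      2 / c * (2 * Real.pi * (A - B)) := by
    intro N
    -- choice of the radius
    obtain ⟨r, hr1, hr2, hr3⟩ : ∃ r : ℝ, 1 / 2 ≤ r ∧ r < 1 ∧
        ∀ k < N, 1 - r ≤ th k - th (k + 1) := by
      induction N with
      | zero => exact ⟨1 / 2, le_rfl, by norm_num, by intro k hk; omega⟩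
      | succ N ih =>
        obtain ⟨r, hr1, hr2, hr3⟩ := ih
        refine ⟨max r (1 - (th N - th (N + 1))), le_max_of_le_left hr1, max_lt hr2 ?_, ?_⟩
        · linarith [th_gap_pos N]
        · intro k hk
          rcases Nat.lt_succ_iff_lt_or_eq.mp hk with h | h
          · have := hr3 k h
            have := le_max_left r (1 - (th N - th (N + 1)))
            linarith
          · subst h
            have := le_max_right r (1 - (th k - th (k + 1)))
            linarith
    have hr0 : 0 < r := by linarith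
    have hball : ∀ θ : ℝ, circleMap 0 r θ ∈ ball (0 : ℂ) 1 := by
      intro θ
      rw [mem_ball_zero_iff, norm_circleMap_zero, abs_of_pos hr0]
      exact hr2
    set φ : ℝ → ℝ := fun θ => Real.log ‖f (circleMap 0 r θ)‖ with hφ
    have hci : CircleIntegrable (fun z => Real.log ‖f z‖) 0 r := by
      apply MeromorphicOn.circleIntegrable_log_norm
      apply AnalyticOnNhd.meromorphicOn
      apply hA.mono
      rw [abs_of_pos hr0]
      exact sphere_subset_closedBall.trans (closedBall_subset_ball hr2)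
    have hφi : IntervalIntegrable φ volume 0 (2 * Real.pi) := hci
    have hBint : 2 * Real.pi * B ≤ ∫ θ in (0 : ℝ)..(2 * Real.pi), φ θ := by
      have h1 := hB r hr1 hr2
      unfold Real.circleAverage at h1
      rw [smul_eq_mul] at h1
      have hpi := Real.pi_pos
      have h2 : 2 * Real.pi * B ≤ 2 * Real.pi * ((2 * Real.pi)⁻¹ *
          ∫ θ in (0 : ℝ)..(2 * Real.pi), Real.log ‖f (circleMap 0 r θ)‖) := by
        gcongr
      rw [← mul_assoc, mul_inv_cancel₀ (by positivity), one_mul] at h2
      exact h2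
    have hae := ae_ne hA hne hr0 hr2
    set ψ : ℝ → ℝ := fun θ => A - φ θ with hψ
    have hψi : IntervalIntegrable ψ volume 0 (2 * Real.pi) :=
      intervalIntegrable_const.sub hφi
    have hψint : ∫ θ in (0 : ℝ)..(2 * Real.pi), ψ θ ≤ 2 * Real.pi * (A - B) := by
      rw [hψ, intervalIntegral.integral_sub intervalIntegrable_const hφi,
        intervalIntegral.integral_const]
      simp only [sub_zero, smul_eq_mul]
      linarith
    have hψ0 : ∀ᵐ θ : ℝ, 0 ≤ ψ θ := by
      filter_upwards [hae] with θ hθ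
      have := hAup _ (hball θ) hθ
      simp only [hψ, hφ]
      linarith
    have hth0 : ∀ k, 0 ≤ th k := fun k => (th_pos k).le
    have hth1 : ∀ k, th k ≤ 2 * Real.pi := fun k => by
      have := th_le_pi k
      have := Real.pi_pos
      linarith
    have hsubi : ∀ k l : ℕ, IntervalIntegrable ψ volume (th k) (th l) := by
      intro k l
      apply hψi.mono_set
      rw [uIcc_of_le (by positivity : (0 : ℝ) ≤ 2 * Real.pi)]
      apply uIcc_subset_Icc
      · exact ⟨hth0 k, hth1 k⟩
      · exact ⟨hth0 l, hth1 l⟩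
    have hmono : ∫ θ in (th N)..(th 0), ψ θ ≤ ∫ θ in (0 : ℝ)..(2 * Real.pi), ψ θ := by
      apply intervalIntegral.integral_mono_interval (hth0 N) (th_anti (Nat.zero_le N)) (hth1 0)
        _ hψi
      exact ae_restrict_of_ae hψ0
    have hsum : ∑ k ∈ Finset.range N, ∫ θ in (th (k + 1))..(th k), ψ θ =
        ∫ θ in (th N)..(th 0), ψ θ := by
      have h1 := intervalIntegral.sum_integral_adjacent_intervals (f := ψ) (μ := volume)
        (a := th) (n := N) (fun k _ => hsubi k (k + 1))
      rw [intervalIntegral.integral_symm, ← h1, ← Finset.sum_neg_distrib]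
      apply Finset.sum_congr rfl
      intro k _
      rw [intervalIntegral.integral_symm]
    have hterm : ∀ k ∈ Finset.range N, c / 2 * Real.sqrt (th k - th (k + 1)) ≤
        ∫ θ in (th (k + 1))..(th k), ψ θ := by
      intro k hk
      have hkN := Finset.mem_range.mp hk
      set l := th k - th (k + 1) with hl
      have hl0 : 0 < l := th_gap_pos k
      have hlow : ∫ _ in (th (k + 1))..(th k), c * (1 / Real.sqrt (2 * l)) ≤
          ∫ θ in (th (k + 1))..(th k), ψ θ := by
        apply intervalIntegral.integral_mono_ae_restrict (by linarith) intervalIntegrable_const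
          (hsubi (k + 1) k)
        filter_upwards [ae_restrict_of_ae hae, ae_restrict_mem measurableSet_Icc] with θ hθ hθm
        have hd : ‖circleMap 0 r θ - a k‖ ≤ 2 * l := by
          have e1 : circleMap 0 r θ - a k = -((1 - r : ℝ) : ℂ) * Complex.exp ((θ : ℂ) * I) +
              (Complex.exp ((θ : ℂ) * I) - Complex.exp ((th k : ℂ) * I)) := by
            unfold a circleMap
            push_cast
            ring
          rw [e1]
          refine (norm_add_le _ _).trans ?_
          rw [norm_mul, norm_neg, Complex.norm_real, Complex.norm_exp_ofReal_mul_I, mul_one,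
            Real.norm_of_nonneg (by linarith)]
          have h1 := norm_exp_sub_exp_le θ (th k)
          have h2 : |θ - th k| ≤ l := by
            rw [abs_le]; constructor <;> linarith [hθm.1, hθm.2]
          have h3 := hr3 k hkN
          linarith
        have := hflog k _ (hball θ) hθ (2 * l) (by positivity) hd
        simp only [hψ, hφ]
        linarith
      refine le_trans ?_ hlow
      rw [intervalIntegral.integral_const, smul_eq_mul, ← hl]
      have h1 : Real.sqrt (2 * l) = Real.sqrt 2 * Real.sqrt l := Real.sqrt_mul (by norm_num) l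
      have h2 : Real.sqrt 2 ≤ 2 := by
        rw [Real.sqrt_le_left (by norm_num)]; norm_num
      have h3 : 0 < Real.sqrt l := Real.sqrt_pos.mpr hl0
      have h4 : l = Real.sqrt l * Real.sqrt l := (Real.mul_self_sqrt hl0.le).symm
      have h5 : 0 < Real.sqrt 2 := by positivity
      rw [h1]
      have h6 : l * (c * (1 / (Real.sqrt 2 * Real.sqrt l))) = c * Real.sqrt l / Real.sqrt 2 := by
        conv_lhs => rw [h4]
        rw [Real.sqrt_mul_self h3.le]
        field_simp
      rw [h6, div_mul_eq_mul_div]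
      gcongr
    have hfin : c / 2 * ∑ k ∈ Finset.range N, Real.sqrt (th k - th (k + 1)) ≤
        2 * Real.pi * (A - B) := by
      rw [Finset.mul_sum]
      refine (Finset.sum_le_sum hterm).trans ?_
      rw [hsum]
      exact hmono.trans hψint
    calc ∑ k ∈ Finset.range N, Real.sqrt (th k - th (k + 1))
        = 2 / c * (c / 2 * ∑ k ∈ Finset.range N, Real.sqrt (th k - th (k + 1))) := by
          field_simp
      _ ≤ 2 / c * (2 * Real.pi * (A - B)) := by gcongr
  exact not_summable_gap (summable_of_sum_range_le (fun k => Real.sqrt_nonneg _) main)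

end PK
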