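import Mathlib

/-! Definitions for the problem on peak sets of analytic Lipschitz classes. -/

namespace PK

open Complex Filter Topology Metric Set

/-- The class `A_α`: `f` is analytic in the open unit disc, continuous on the closed disc, and
`|f(z) - f(w)| ≤ C |z - w|^α` for all `z, w` on the unit circle, for some constant `C`. -/
def IsALip (α : ℝ) (f : ℂ → ℂ) : Prop :=
  DifferentiableOn ℂ f (ball 0 1) ∧ ContinuousOn f (closedBall 0 1) ∧
    ∃ C : ℝ, ∀ z ∈ sphere (0 : ℂ) 1, ∀ w ∈ sphere (0 : ℂ) 1, ‖f z - f w‖ ≤ C * ‖z - w‖ ^ α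

/-- `E` is a peak set for `A_α`: `E` is a closed subset of the unit circle and some `f ∈ A_α`
equals `1` on `E` and satisfies `|f| < 1` on the rest of the circle. -/
def IsPeakSet (α : ℝ) (E : Set ℂ) : Prop :=
  IsClosed E ∧ E ⊆ sphere (0 : ℂ) 1 ∧ ∃ f : ℂ → ℂ, IsALip α f ∧ (∀ z ∈ E, f z = 1) ∧
    ∀ z ∈ sphere (0 : ℂ) 1, z ∉ E → ‖f z‖ < 1

/-- The Gevrey class `G_α`: `f` is analytic in the open unit disc and for some constant `C`,
`|f^{(n)}(z)| ≤ C^{n+1} (n!)^{1+1/α}` for all `n ≥ 0` and all `z` in the open disc. -/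
def IsGevrey (α : ℝ) (f : ℂ → ℂ) : Prop :=
  DifferentiableOn ℂ f (ball 0 1) ∧ ∃ C : ℝ, ∀ n : ℕ, ∀ z ∈ ball (0 : ℂ) 1,
    ‖iteratedDeriv n f z‖ ≤ C ^ (n + 1) * (n.factorial : ℝ) ^ (1 + 1 / α)

/-- `E` is a zero set for `G_α`: some `f ∈ G_α`, not identically zero in the disc, has
`f^{(n)} = 0` on `E` for every `n ≥ 0`, where the values of `f^{(n)}` on the unit circle are the
limits from inside the disc. -/
def IsGevreyZeroSet (α : ℝ) (E : Set ℂ) : Prop :=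
  ∃ f : ℂ → ℂ, IsGevrey α f ∧ (∃ z ∈ ball (0 : ℂ) 1, f z ≠ 0) ∧
    ∀ n : ℕ, ∀ ζ ∈ E, Tendsto (iteratedDeriv n f) (𝓝[ball 0 1] ζ) (𝓝 0)

end PK
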