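import Pool.Agent.N292.PK.Int

/-! A countable peak set `E` for `A_{1/2}` with `∫ dist(·, E)^{-1/2} = ∞`. -/

namespace PK.HalfIntegral

theorem result : ∃ E : Set ℂ, E.Countable ∧ PK.IsPeakSet (1 / 2) E ∧
    ∫⁻ θ : ℝ in Set.Ioc 0 (2 * Real.pi),
      ENNReal.ofReal
        ((Metric.infDist (Complex.exp ((θ : ℂ) * Complex.I)) E) ^ (-(1 / 2) : ℝ)) = ⊤ :=
  ⟨PK.E, PK.countable_E, PK.isPeakSet_E, PK.lintegral_top⟩

end PK.HalfIntegral
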