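import Pool.Agent.N292.PK.Main

namespace PK

open Complex Filter Topology Metric Set MeasureTheory

/-- the function `θ ↦ dist (e^{iθ}, E)^{-1/2}` -/
noncomputable def hfun (θ : ℝ) : ℝ := (infDist (Complex.exp ((θ : ℂ) * I)) E) ^ (-(1 / 2) : ℝ)

lemma hfun_measurable : Measurable hfun := by
  unfold hfun
  have : Continuous (fun θ : ℝ => infDist (Complex.exp ((θ : ℂ) * I)) E) :=
    (continuous_infDist_pt E).comp (by fun_prop)
  exact this.measurable.pow_const _

lemma hfun_nonneg (θ : ℝ) : 0 ≤ hfun θ := Real.rpow_nonneg infDist_nonneg _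

lemma ae_notMem_E : ∀ᵐ (θ : ℝ) ∂((volume : Measure ℝ).restrict (Ioc 0 (2 * Real.pi))),
    Complex.exp ((θ : ℂ) * I) ∉ E := by
  rw [ae_restrict_iff' measurableSet_Ioc]
  have hc : {θ : ℝ | θ ∈ Ioc 0 (2 * Real.pi) ∧ Complex.exp ((θ : ℂ) * I) ∈ E}.Countable := by
    apply MapsTo.countable_of_injOn (t := E) (f := fun θ : ℝ => Complex.exp ((θ : ℂ) * I))
      (fun θ hθ => hθ.2) _ countable_E
    have h1 := injOn_circleMap_of_abs_sub_le (a := 0) (b := 2 * Real.pi) (R := 1) (c := 0)
      one_ne_zero (by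
        rw [zero_sub, abs_neg, abs_of_nonneg (by positivity)])
    rw [uIoc_of_le (by positivity)] at h1
    intro x hx y hy hxy
    apply h1 hx.1 hy.1
    unfold circleMap
    simp only [ofReal_one, one_mul, zero_add]
    exact hxy
  have h2 := hc.ae_notMem (volume : Measure ℝ)
  filter_upwards [h2] with θ hθ hm hE
  exact hθ ⟨hm, hE⟩

theorem lintegral_top :
    ∫⁻ θ : ℝ in Ioc 0 (2 * Real.pi),
      ENNReal.ofReal ((infDist (Complex.exp ((θ : ℂ) * I)) E) ^ (-(1 / 2) : ℝ)) = ⊤ := by
  by_contra hcon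
  have hint : IntegrableOn hfun (Ioc 0 (2 * Real.pi)) := by
    refine ⟨hfun_measurable.aestronglyMeasurable, ?_⟩
    rw [hasFiniteIntegral_iff_ofReal (Eventually.of_forall hfun_nonneg)]
    exact lt_top_iff_ne_top.mpr hcon
  have hψi : IntervalIntegrable hfun volume 0 (2 * Real.pi) := by
    rw [intervalIntegrable_iff, uIoc_of_le (by positivity)]
    exact hint
  apply not_summable_gap
  refine summable_of_sum_range_le (c := ∫ θ in (0 : ℝ)..(2 * Real.pi), hfun θ)
    (fun k => Real.sqrt_nonneg _) (fun N => ?_)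
  have hth0 : ∀ k, 0 ≤ th k := fun k => (th_pos k).le
  have hth1 : ∀ k, th k ≤ 2 * Real.pi := fun k => by
    have := th_le_pi k
    have := Real.pi_pos
    linarith
  have hsubi : ∀ k l : ℕ, IntervalIntegrable hfun volume (th k) (th l) := by
    intro k l
    apply hψi.mono_set
    rw [uIcc_of_le (by positivity : (0 : ℝ) ≤ 2 * Real.pi)]
    apply uIcc_subset_Icc
    · exact ⟨hth0 k, hth1 k⟩
    · exact ⟨hth0 l, hth1 l⟩
  have hmono : ∫ θ in (th N)..(th 0), hfun θ ≤ ∫ θ in (0 : ℝ)..(2 * Real.pi), hfun θ := by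
    apply intervalIntegral.integral_mono_interval (hth0 N) (th_anti (Nat.zero_le N)) (hth1 0)
      _ hψi
    exact Eventually.of_forall hfun_nonneg
  have hsum : ∑ k ∈ Finset.range N, ∫ θ in (th (k + 1))..(th k), hfun θ =
      ∫ θ in (th N)..(th 0), hfun θ := by
    have h1 := intervalIntegral.sum_integral_adjacent_intervals (f := hfun) (μ := volume)
      (a := th) (n := N) (fun k _ => hsubi k (k + 1))
    rw [intervalIntegral.integral_symm, ← h1, ← Finset.sum_neg_distrib]
    apply Finset.sum_congr rfl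
    intro k _
    rw [intervalIntegral.integral_symm]
  refine le_trans (Finset.sum_le_sum (fun k _ => ?_)) (hsum.trans_le hmono)
  set l := th k - th (k + 1) with hl
  have hl0 : 0 < l := th_gap_pos k
  have hlow : ∫ _ in (th (k + 1))..(th k), l ^ (-(1 / 2) : ℝ) ≤
      ∫ θ in (th (k + 1))..(th k), hfun θ := by
    rw [intervalIntegral.integral_of_le (by linarith), intervalIntegral.integral_of_le (by linarith)]
    have hsub : Ioc (th (k + 1)) (th k) ⊆ Ioc 0 (2 * Real.pi) :=
      Ioc_subset_Ioc (hth0 _) (hth1 _)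
    apply setIntegral_mono_ae_restrict (integrableOn_const (by simp)) (hsubi (k + 1) k).1
    filter_upwards [ae_mono (Measure.restrict_mono hsub le_rfl) ae_notMem_E,
      ae_restrict_mem measurableSet_Ioc] with θ hθ hθm
    unfold hfun
    have hpos : 0 < infDist (Complex.exp ((θ : ℂ) * I)) E :=
      (isClosed_E.notMem_iff_infDist_pos ⟨1, one_mem_E⟩).mp hθ
    have hle : infDist (Complex.exp ((θ : ℂ) * I)) E ≤ l := by
      refine (infDist_le_dist_of_mem (a_mem_E k)).trans ?_
      rw [dist_eq_norm]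
      refine (norm_exp_sub_exp_le θ (th k)).trans ?_
      rw [abs_le]; constructor <;> linarith [hθm.1, hθm.2]
    exact Real.rpow_le_rpow_of_nonpos hpos hle (by norm_num)
  refine le_trans (le_of_eq ?_) hlow
  rw [intervalIntegral.integral_const, smul_eq_mul, ← hl, Real.sqrt_eq_rpow]
  have : l * l ^ (-(1 / 2) : ℝ) = l ^ (1 : ℝ) * l ^ (-(1 / 2) : ℝ) := by rw [Real.rpow_one]
  rw [this, ← Real.rpow_add hl0]
  norm_num

end PK
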