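import Mathlib

/-! The kernel `1 / ((1 - i) √s + s / σ)` on the right half plane. -/

namespace PK

open Complex

noncomputable def sq (s : ℂ) : ℂ := s ^ ((2 : ℂ)⁻¹)

lemma sq_sq (s : ℂ) : sq s ^ 2 = s := by
  have := Complex.cpow_nat_inv_pow s (n := 2) (by norm_num)
  unfold sq
  exact_mod_cast this

lemma sq_re_nonneg (s : ℂ) : 0 ≤ (sq s).re := by
  unfold sq
  by_cases hs : s = 0
  · subst hs
    rw [Complex.zero_cpow (by norm_num)]
    simp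
  · rw [Complex.cpow_def_of_ne_zero hs, Complex.exp_re]
    apply mul_nonneg (Real.exp_pos _).le
    have him : (Complex.log s * (2 : ℂ)⁻¹).im = s.arg / 2 := by
      have : (2 : ℂ)⁻¹ = (((2 : ℝ)⁻¹ : ℝ) : ℂ) := by norm_num
      rw [this, Complex.im_mul_ofReal, Complex.log_im]
      ring
    rw [him]
    apply Real.cos_nonneg_of_mem_Icc
    have h1 := Complex.neg_pi_lt_arg s
    have h2 := Complex.arg_le_pi s
    constructor <;> linarith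

lemma norm_sq_sq (s : ℂ) : ‖sq s‖ ^ 2 = ‖s‖ := by
  rw [← norm_pow, sq_sq]

lemma sq_diff {s : ℂ} (hs : 0 < s.re) : DifferentiableAt ℂ sq s := by
  unfold sq
  exact differentiableAt_id.cpow (differentiableAt_const _) (Or.inl hs)

lemma sq_sector {s : ℂ} (hs : 0 ≤ s.re) : |(sq s).im| ≤ (sq s).re := by
  have h1 := sq_sq s
  have h2 : (sq s ^ 2).re = (sq s).re ^ 2 - (sq s).im ^ 2 := by
    rw [pow_two, Complex.mul_re]; ring
  rw [h1] at h2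
  apply abs_le_of_sq_le_sq _ (sq_re_nonneg s)
  linarith

lemma sq_sub_le {s t : ℂ} (hs : 0 ≤ s.re) (ht : 0 ≤ t.re) : ‖sq s - sq t‖ ^ 2 ≤ ‖s - t‖ := by
  have h1 : s - t = (sq s - sq t) * (sq s + sq t) := by
    have := sq_sq s
    have := sq_sq t
    linear_combination (-1) * (sq_sq s) + (sq_sq t)
  have h2 : ‖sq s - sq t‖ ≤ ‖sq s + sq t‖ := by
    apply le_of_sq_le_sq _ (norm_nonneg _)
    rw [← Complex.normSq_eq_norm_sq, ← Complex.normSq_eq_norm_sq, Complex.normSq_sub,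
      Complex.normSq_add]
    have h3 : 0 ≤ (sq s * (starRingEnd ℂ) (sq t)).re := by
      rw [Complex.mul_re, Complex.conj_re, Complex.conj_im]
      have a1 := abs_le.mp (sq_sector hs)
      have a2 := abs_le.mp (sq_sector ht)
      nlinarith
    linarith
  rw [h1, norm_mul, pow_two]
  gcongr

/-- The denominator. -/
noncomputable def den (σ : ℝ) (s : ℂ) : ℂ := (1 - I) * sq s + s / σ

lemma den_re (σ : ℝ) (s : ℂ) :
    (den σ s).re = ((sq s).re + (sq s).im) + ((sq s).re ^ 2 - (sq s).im ^ 2) / σ := by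
  have h : s = sq s ^ 2 := (sq_sq s).symm
  unfold den
  rw [Complex.add_re, Complex.mul_re, Complex.div_ofReal_re]
  conv_lhs => rw [show s.re = (sq s ^ 2).re by rw [← h]]
  simp [pow_two]

lemma den_im (σ : ℝ) (s : ℂ) :
    (den σ s).im = ((sq s).im - (sq s).re) + (2 * (sq s).re * (sq s).im) / σ := by
  have h : s = sq s ^ 2 := (sq_sq s).symm
  unfold den
  rw [Complex.add_im, Complex.mul_im, Complex.div_ofReal_im]
  conv_lhs => rw [show s.im = (sq s ^ 2).im by rw [← h]]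
  simp [pow_two]
  ring

lemma den_re_nonneg {σ : ℝ} (hσ : 0 < σ) {s : ℂ} (hs : 0 ≤ s.re) : 0 ≤ (den σ s).re := by
  rw [den_re]
  have a1 := abs_le.mp (sq_sector hs)
  have h1 : 0 ≤ (sq s).re + (sq s).im := by linarith
  have h2 : 0 ≤ (sq s).re ^ 2 - (sq s).im ^ 2 := by nlinarith
  positivity

lemma norm_u_sq (s : ℂ) : ‖s‖ = (sq s).re ^ 2 + (sq s).im ^ 2 := by
  rw [← norm_sq_sq, ← Complex.normSq_eq_norm_sq, Complex.normSq_apply]; ring

lemma den_norm_ge {σ : ℝ} (hσ : 0 < σ) {s : ℂ} (hs : 0 ≤ s.re) :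
    ‖s‖ * (1 + ‖s‖ / σ ^ 2) ≤ ‖den σ s‖ ^ 2 := by
  rw [← Complex.normSq_eq_norm_sq, Complex.normSq_apply, den_re, den_im, norm_u_sq s]
  have a1 := abs_le.mp (sq_sector hs)
  set x := (sq s).re
  set y := (sq s).im
  have key : (x + y + (x ^ 2 - y ^ 2) / σ) * (x + y + (x ^ 2 - y ^ 2) / σ) +
      (y - x + 2 * x * y / σ) * (y - x + 2 * x * y / σ)
      - (x ^ 2 + y ^ 2) * (1 + (x ^ 2 + y ^ 2) / σ ^ 2)
      = (x ^ 2 + y ^ 2) + 2 * ((x - y) * (x ^ 2 + y ^ 2)) / σ := by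
    field_simp
    ring
  have h1 : 0 ≤ x - y := by linarith
  have h2 : 0 ≤ (x ^ 2 + y ^ 2) + 2 * ((x - y) * (x ^ 2 + y ^ 2)) / σ := by positivity
  linarith

lemma den_im_le {σ : ℝ} (hσ : 0 < σ) {s : ℂ} (hs : 0 ≤ s.re) : (den σ s).im ≤ ‖s‖ / σ := by
  rw [den_im, norm_u_sq s]
  have a1 := abs_le.mp (sq_sector hs)
  set x := (sq s).re
  set y := (sq s).im
  have h1 : 2 * x * y / σ ≤ (x ^ 2 + y ^ 2) / σ := by
    gcongr
    nlinarith [sq_nonneg (x - y)]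
  linarith

lemma den_norm_le {σ : ℝ} (hσ : 0 < σ) (s : ℂ) : ‖den σ s‖ ≤ 2 * ‖sq s‖ + ‖s‖ / σ := by
  unfold den
  refine (norm_add_le _ _).trans ?_
  rw [norm_mul, norm_div, Complex.norm_real, Real.norm_of_nonneg hσ.le]
  have : ‖(1 - I : ℂ)‖ ≤ 2 := by
    refine (norm_sub_le _ _).trans ?_
    simp
    norm_num
  gcongr

/-- The kernel. -/
noncomputable def ker (σ : ℝ) (s : ℂ) : ℂ := (den σ s)⁻¹

lemma den_norm_pos {σ : ℝ} (hσ : 0 < σ) {s : ℂ} (hs : 0 ≤ s.re) (h0 : s ≠ 0) :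
    0 < ‖den σ s‖ := by
  have h := den_norm_ge hσ hs
  have h1 : 0 < ‖s‖ := norm_pos_iff.mpr h0
  have h2 : 0 < ‖s‖ * (1 + ‖s‖ / σ ^ 2) := by positivity
  rcases (norm_nonneg (den σ s)).eq_or_lt with h3 | h3
  · rw [← h3] at h; norm_num at h; linarith
  · exact h3

lemma ker_re_nonneg {σ : ℝ} (hσ : 0 < σ) {s : ℂ} (hs : 0 ≤ s.re) : 0 ≤ (ker σ s).re := by
  unfold ker
  rw [Complex.inv_re]
  exact div_nonneg (den_re_nonneg hσ hs) (Complex.normSq_nonneg _)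

lemma ker_norm_le {σ : ℝ} (hσ : 0 < σ) {s : ℂ} (hs : 0 ≤ s.re) (h0 : s ≠ 0) :
    ‖ker σ s‖ ≤ σ / ‖s‖ := by
  have h := den_norm_ge hσ hs
  have h1 : 0 < ‖s‖ := norm_pos_iff.mpr h0
  have h2 := den_norm_pos hσ hs h0
  unfold ker
  rw [norm_inv, inv_eq_one_div, div_le_div_iff₀ h2 h1]
  have h3 : (‖s‖ / σ) ^ 2 ≤ ‖den σ s‖ ^ 2 := by
    refine le_trans ?_ h
    have : (‖s‖ / σ) ^ 2 = ‖s‖ * (‖s‖ / σ ^ 2) := by field_simp
    rw [this]
    gcongr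
    linarith
  have h4 : ‖s‖ / σ ≤ ‖den σ s‖ := le_of_sq_le_sq h3 h2.le
  rw [div_le_iff₀ hσ] at h4
  linarith

/-- `|V| |u| / σ ≤ (σ² + |s|)^{-1/2}`. -/
lemma ker_mul_le {σ : ℝ} (hσ : 0 < σ) {s : ℂ} (hs : 0 ≤ s.re) (h0 : s ≠ 0) :
    (‖ker σ s‖ * (‖sq s‖ / σ)) ^ 2 ≤ 1 / (σ ^ 2 + ‖s‖) := by
  have h := den_norm_ge hσ hs
  have h1 : 0 < ‖s‖ := norm_pos_iff.mpr h0
  have h2 := den_norm_pos hσ hs h0
  unfold ker
  rw [norm_inv, mul_pow, div_pow, norm_sq_sq, inv_pow]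
  rw [← div_eq_inv_mul, div_div, div_le_div_iff₀ (by positivity) (by positivity)]
  have h3 : ‖s‖ * (σ ^ 2 + ‖s‖) = σ ^ 2 * (‖s‖ * (1 + ‖s‖ / σ ^ 2)) := by
    field_simp
  rw [h3, one_mul]
  gcongr

lemma ker_im_ge {σ : ℝ} (hσ : 0 < σ) {s : ℂ} (hs : 0 ≤ s.re) (h0 : s ≠ 0) :
    -(σ / (σ ^ 2 + ‖s‖)) ≤ (ker σ s).im := by
  have h := den_norm_ge hσ hs
  have h1 : 0 < ‖s‖ := norm_pos_iff.mpr h0
  have h2 := den_norm_pos hσ hs h0
  have h3 := den_im_le hσ hs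
  unfold ker
  rw [Complex.inv_im, Complex.normSq_eq_norm_sq, neg_div, neg_le_neg_iff,
    div_le_div_iff₀ (by positivity) (by positivity)]
  have h4 : (den σ s).im * (σ ^ 2 + ‖s‖) ≤ ‖s‖ / σ * (σ ^ 2 + ‖s‖) := by gcongr
  have h5 : ‖s‖ / σ * (σ ^ 2 + ‖s‖) = σ * (‖s‖ * (1 + ‖s‖ / σ ^ 2)) := by
    field_simp
  have h6 : σ * (‖s‖ * (1 + ‖s‖ / σ ^ 2)) ≤ σ * ‖den σ s‖ ^ 2 := by gcongr
  linarith

lemma ker_norm_ge {σ : ℝ} (hσ : 0 < σ) {s : ℂ} (hs : 0 ≤ s.re) (h0 : s ≠ 0)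
    (hsm : ‖s‖ ≤ σ ^ 2) : 1 / (3 * ‖sq s‖) ≤ ‖ker σ s‖ := by
  have h2 := den_norm_pos hσ hs h0
  have hu : 0 < ‖sq s‖ := by
    rcases (norm_nonneg (sq s)).eq_or_lt with h3 | h3
    · have := norm_sq_sq s
      rw [← h3] at this
      have h1 : 0 < ‖s‖ := norm_pos_iff.mpr h0
      norm_num at this
      exact absurd this.symm h1.ne'
    · exact h3
  have h3 := den_norm_le hσ s
  have h4 : ‖s‖ / σ ≤ ‖sq s‖ := by
    rw [div_le_iff₀ hσ, ← norm_sq_sq s, pow_two]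
    have : ‖sq s‖ ≤ σ := by
      apply le_of_sq_le_sq _ hσ.le
      rw [norm_sq_sq]; exact hsm
    gcongr
  unfold ker
  rw [norm_inv, inv_eq_one_div]
  apply one_div_le_one_div_of_le h2
  linarith

/-- the difference estimate for the kernel. -/
lemma ker_sub {σ : ℝ} (hσ : 0 < σ) {s t : ℂ} (hs : 0 ≤ s.re) (ht : 0 ≤ t.re) (h0 : s ≠ 0)
    (h0' : t ≠ 0) :
    ‖ker σ s - ker σ t‖ ≤ ‖ker σ s‖ * ‖ker σ t‖ *
      (‖sq s - sq t‖ * (2 + (‖sq s‖ + ‖sq t‖) / σ)) := by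
  have h1 : den σ s ≠ 0 := norm_pos_iff.mp (den_norm_pos hσ hs h0)
  have h2 : den σ t ≠ 0 := norm_pos_iff.mp (den_norm_pos hσ ht h0')
  have e : ker σ s - ker σ t = ker σ s * ker σ t * (den σ t - den σ s) := by
    unfold ker
    field_simp
  rw [e, norm_mul, norm_mul]
  gcongr
  have e2 : den σ t - den σ s = (sq t - sq s) * ((1 - I) + (sq t + sq s) / σ) := by
    unfold den
    have hσ' : (σ : ℂ) ≠ 0 := by exact_mod_cast hσ.ne'
    have a1 := sq_sq s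
    have a2 := sq_sq t
    field_simp
    linear_combination a1 - a2
  rw [e2, norm_mul, norm_sub_rev]
  gcongr
  refine (norm_add_le _ _).trans ?_
  rw [norm_div, Complex.norm_real, Real.norm_of_nonneg hσ.le]
  have h3 : ‖(1 - I : ℂ)‖ ≤ 2 := by
    refine (norm_sub_le _ _).trans ?_
    simp
    norm_num
  have h4 : ‖sq t + sq s‖ ≤ ‖sq s‖ + ‖sq t‖ := by
    rw [add_comm]; exact norm_add_le _ _
  gcongr

lemma ker_diff {σ : ℝ} (hσ : 0 < σ) {s : ℂ} (hs : 0 < s.re) : DifferentiableAt ℂ (ker σ) s := by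
  have h0 : s ≠ 0 := by rintro rfl; simp at hs
  have h1 : den σ s ≠ 0 := norm_pos_iff.mp (den_norm_pos hσ hs.le h0)
  have h2 : DifferentiableAt ℂ (den σ) s := by
    unfold den
    exact ((sq_diff hs).const_mul _).add (differentiableAt_id.div_const _)
  exact h2.inv h1

end PK
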