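import Pool.Agent.N292.PK.Seq

/-! The points `a k = exp (i θ k)` with `|1 - a k| = τ k`, and the set `E = {1} ∪ {a k}`. -/

namespace PK

open Finset Complex Filter Topology

noncomputable def th (k : ℕ) : ℝ := 2 * Real.arcsin (tau k / 2)

noncomputable def a (k : ℕ) : ℂ := Complex.exp ((th k : ℂ) * I)

lemma norm_a (k : ℕ) : ‖a k‖ = 1 := Complex.norm_exp_ofReal_mul_I _

lemma sin_half (k : ℕ) : Real.sin (th k / 2) = tau k / 2 := by
  unfold th
  rw [mul_div_cancel_left₀ _ (by norm_num : (2 : ℝ) ≠ 0)]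
  apply Real.sin_arcsin
  · linarith [tau_pos k]
  · linarith [tau_le_one k]

lemma cos_half (k : ℕ) : 4 / 5 ≤ Real.cos (th k / 2) := by
  unfold th
  rw [mul_div_cancel_left₀ _ (by norm_num : (2 : ℝ) ≠ 0), Real.cos_arcsin]
  apply Real.le_sqrt_of_sq_le
  have h1 := tau_pos k
  have h2 := tau_le_one k
  nlinarith

lemma re_a (k : ℕ) : (a k).re = 1 - (tau k) ^ 2 / 2 := by
  unfold a
  rw [Complex.exp_ofReal_mul_I_re]
  have h : th k = 2 * (th k / 2) := by ring
  rw [h, Real.cos_two_mul, ← sub_eq_zero]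
  have h2 := Real.sin_sq_add_cos_sq (th k / 2)
  rw [sin_half] at h2
  linear_combination 2 * h2

lemma im_a (k : ℕ) : (a k).im = tau k * Real.cos (th k / 2) := by
  unfold a
  rw [Complex.exp_ofReal_mul_I_im]
  have h : th k = 2 * (th k / 2) := by ring
  rw [h, Real.sin_two_mul, ← h, sin_half]
  ring

lemma im_a_ge (k : ℕ) : 4 / 5 * tau k ≤ (a k).im := by
  rw [im_a]
  have := cos_half k
  have := tau_pos k
  nlinarith

lemma norm_one_sub_a (k : ℕ) : ‖1 - a k‖ = tau k := by
  have h1 : ‖1 - a k‖ ^ 2 = (tau k) ^ 2 := by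
    rw [← Complex.normSq_eq_norm_sq, Complex.normSq_apply]
    have h2 : (a k).re ^ 2 + (a k).im ^ 2 = 1 := by
      have h3 : Complex.normSq (a k) = 1 := by
        rw [Complex.normSq_eq_norm_sq, norm_a]; norm_num
      rw [Complex.normSq_apply] at h3
      linarith
    have h4 := re_a k
    simp only [Complex.sub_re, Complex.one_re, Complex.sub_im, Complex.one_im]
    nlinarith
  have h5 := tau_pos k
  exact (pow_left_inj₀ (norm_nonneg _) h5.le (by norm_num)).mp h1

lemma th_pos (k : ℕ) : 0 < th k := by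
  unfold th
  have : 0 < Real.arcsin (tau k / 2) := Real.arcsin_pos.mpr (by linarith [tau_pos k])
  linarith

lemma th_le_pi (k : ℕ) : th k ≤ Real.pi := by
  unfold th
  have := Real.arcsin_le_pi_div_two (tau k / 2)
  linarith

lemma th_anti {i j : ℕ} (h : i ≤ j) : th j ≤ th i := by
  unfold th
  have := Real.monotone_arcsin (show tau j / 2 ≤ tau i / 2 by linarith [tau_anti h])
  linarith

lemma norm_exp_sub_exp_le (x y : ℝ) :
    ‖Complex.exp ((x : ℂ) * I) - Complex.exp ((y : ℂ) * I)‖ ≤ |x - y| := by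
  have h : Complex.exp ((x : ℂ) * I) - Complex.exp ((y : ℂ) * I)
      = Complex.exp ((y : ℂ) * I) * (Complex.exp (I * ((x - y : ℝ) : ℂ)) - 1) := by
    rw [mul_sub, ← Complex.exp_add, mul_one]
    congr 2
    push_cast
    ring
  rw [h, norm_mul, Complex.norm_exp_ofReal_mul_I, one_mul]
  have := Real.norm_exp_I_mul_ofReal_sub_one_le (x := x - y)
  simpa using this

lemma gap_le (k : ℕ) : tau k - tau (k + 1) ≤ th k - th (k + 1) := by
  have h1 := norm_exp_sub_exp_le (th k) (th (k + 1))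
  have h2 : ‖1 - a k‖ ≤ ‖1 - a (k + 1)‖ + ‖a (k + 1) - a k‖ := by
    have : 1 - a k = (1 - a (k + 1)) + (a (k + 1) - a k) := by ring
    rw [this]; exact norm_add_le _ _
  rw [norm_one_sub_a, norm_one_sub_a] at h2
  have h3 : ‖a (k + 1) - a k‖ = ‖a k - a (k + 1)‖ := norm_sub_rev _ _
  rw [abs_of_nonneg (by linarith [th_anti (Nat.le_succ k)])] at h1
  have h4 : ‖a k - a (k + 1)‖ ≤ th k - th (k + 1) := h1
  linarith

/-- The set. -/
def E : Set ℂ := insert 1 (Set.range a)

lemma one_mem_E : (1 : ℂ) ∈ E := Set.mem_insert _ _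

lemma a_mem_E (k : ℕ) : a k ∈ E := Set.mem_insert_of_mem _ (Set.mem_range_self k)

lemma tau_tendsto : Tendsto tau atTop (𝓝 0) := summable_tau.tendsto_atTop_zero

lemma a_tendsto : Tendsto a atTop (𝓝 1) := by
  rw [tendsto_iff_norm_sub_tendsto_zero]
  refine tau_tendsto.congr (fun k => ?_)
  rw [norm_sub_rev, norm_one_sub_a]

lemma isClosed_E : IsClosed E := (a_tendsto.isCompact_insert_range).isClosed

lemma countable_E : E.Countable := (Set.countable_range a).insert 1

lemma E_subset : E ⊆ Metric.sphere (0 : ℂ) 1 := by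
  intro z hz
  rcases hz with rfl | ⟨k, rfl⟩
  · simp
  · simp [norm_a]

lemma norm_sub_a_ge (z : ℂ) (k : ℕ) : |‖1 - z‖ - tau k| ≤ ‖z - a k‖ := by
  rw [← norm_one_sub_a k]
  have := abs_norm_sub_norm_le (1 - z) (1 - a k)
  refine this.trans (le_of_eq ?_)
  rw [show (1 - z) - (1 - a k) = a k - z by ring, norm_sub_rev]

/-- the gaps have non-summable square roots. -/
lemma not_summable_gap : ¬ Summable (fun k : ℕ => Real.sqrt (th k - th (k + 1))) := by
  intro h
  apply not_summable_aux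
  have h2 : Summable (fun k : ℕ => (1 / 3) * (((k : ℝ) + 1) * L k)⁻¹) := by
    refine Summable.of_nonneg_of_le (fun k => ?_) (fun k => ?_) h
    · have := one_le_L k
      positivity
    · exact (sqrt_gap_ge k).trans (Real.sqrt_le_sqrt (gap_le k))
  exact (summable_mul_left_iff (by norm_num)).mp h2

end PK
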