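import Mathlib

/-! Sequences used in the construction: `g n = (n+1) * (log₂(n+1)+1)^2`, `τ n = 1 / g n`. -/

namespace PK

open Finset

/-- `L n = ⌊log₂ (n+1)⌋ + 1`. -/
noncomputable def L (n : ℕ) : ℝ := ((Nat.log 2 (n + 1) + 1 : ℕ) : ℝ)

/-- `g n = (n+1) (L n)²`. -/
noncomputable def g (n : ℕ) : ℝ := ((n : ℝ) + 1) * (L n) ^ 2

/-- `τ n = 1 / g n`. -/
noncomputable def tau (n : ℕ) : ℝ := (g n)⁻¹

lemma one_le_L (n : ℕ) : 1 ≤ L n := by
  unfold L
  push_cast
  have : (0 : ℝ) ≤ (Nat.log 2 (n + 1) : ℝ) := Nat.cast_nonneg _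
  linarith

lemma L_mono {i j : ℕ} (h : i ≤ j) : L i ≤ L j := by
  unfold L
  have : Nat.log 2 (i + 1) ≤ Nat.log 2 (j + 1) := Nat.log_mono_right (by omega)
  exact_mod_cast Nat.succ_le_succ this

lemma L_succ_le (n : ℕ) : L (n + 1) ≤ 2 * L n := by
  have h1 : Nat.log 2 (n + 1 + 1) ≤ Nat.log 2 ((n + 1) * 2) := Nat.log_mono_right (by omega)
  have h2 : Nat.log 2 ((n + 1) * 2) = Nat.log 2 (n + 1) + 1 :=
    Nat.log_mul_base (by norm_num) (by omega)
  have h3 : L (n + 1) ≤ L n + 1 := by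
    unfold L
    have : Nat.log 2 (n + 1 + 1) + 1 ≤ Nat.log 2 (n + 1) + 1 + 1 := by omega
    exact_mod_cast this
  have := one_le_L n
  linarith

lemma g_pos (n : ℕ) : 0 < g n := by
  unfold g
  have := one_le_L n
  positivity

lemma le_g (n : ℕ) : (n : ℝ) + 1 ≤ g n := by
  unfold g
  have h1 := one_le_L n
  have h2 : 1 ≤ (L n) ^ 2 := one_le_pow₀ h1
  have h3 : (0 : ℝ) ≤ (n : ℝ) + 1 := by positivity
  nlinarith

lemma one_le_g (n : ℕ) : 1 ≤ g n := by
  have := le_g n
  have h : (0 : ℝ) ≤ n := Nat.cast_nonneg _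
  linarith

lemma g_ratio {i j : ℕ} (h : i ≤ j) : g i * ((j : ℝ) + 1) ≤ g j * ((i : ℝ) + 1) := by
  unfold g
  have h1 := L_mono h
  have h2 := one_le_L i
  have h3 : (L i) ^ 2 ≤ (L j) ^ 2 := by gcongr
  have h4 : (0 : ℝ) ≤ ((i : ℝ) + 1) * ((j : ℝ) + 1) := by positivity
  nlinarith

lemma g_mono {i j : ℕ} (h : i ≤ j) : g i ≤ g j := by
  unfold g
  have h1 := L_mono h
  have h2 := one_le_L i
  have h5 : (i : ℝ) ≤ j := by exact_mod_cast h
  gcongr

lemma g_succ_le (n : ℕ) : g (n + 1) ≤ 8 * g n := by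
  unfold g
  have h1 := L_succ_le n
  have h2 := one_le_L (n + 1)
  have h3 : (L (n + 1)) ^ 2 ≤ (2 * L n) ^ 2 := by gcongr
  have h4 : (((n + 1 : ℕ) : ℝ) + 1) ≤ 2 * ((n : ℝ) + 1) := by push_cast; linarith [Nat.cast_nonneg (α := ℝ) n]
  calc (((n + 1 : ℕ) : ℝ) + 1) * (L (n + 1)) ^ 2 ≤ (2 * ((n : ℝ) + 1)) * (2 * L n) ^ 2 := by gcongr
    _ = 8 * (((n : ℝ) + 1) * (L n) ^ 2) := by ring

lemma g_succ_ge (n : ℕ) : g n + 1 ≤ g (n + 1) := by
  unfold g
  have h1 := L_mono (Nat.le_succ n)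
  have h2 := one_le_L n
  have h3 : (L n) ^ 2 ≤ (L (n + 1)) ^ 2 := by gcongr
  have h4 : 1 ≤ (L (n + 1)) ^ 2 := one_le_pow₀ (one_le_L _)
  push_cast
  have h5 : (0 : ℝ) ≤ n := Nat.cast_nonneg _
  nlinarith

lemma g_zero : g 0 = 1 := by
  unfold g L
  simp

lemma tau_pos (n : ℕ) : 0 < tau n := inv_pos.mpr (g_pos n)

lemma tau_le_one (n : ℕ) : tau n ≤ 1 := inv_le_one_of_one_le₀ (one_le_g n)

lemma tau_anti {i j : ℕ} (h : i ≤ j) : tau j ≤ tau i := by
  unfold tau
  exact inv_anti₀ (g_pos i) (g_mono h)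

/-- harmonic sums -/
noncomputable def H (n : ℕ) : ℝ := ∑ i ∈ range n, ((i : ℝ) + 1)⁻¹

lemma H_le (n : ℕ) : H n ≤ 2 * (L n) ^ 2 := by
  have h1 : H n ≤ 1 + Real.log n := by
    have := harmonic_le_one_add_log n
    have h2 : ((harmonic n : ℚ) : ℝ) = H n := by
      unfold harmonic H
      push_cast
      rfl
    rw [← h2]; exact this
  have h2 : Real.log n ≤ L n := by
    rcases Nat.eq_zero_or_pos n with h | h
    · subst h; simp; linarith [one_le_L 0]
    have hlt : n < 2 ^ (Nat.log 2 (n + 1) + 1) := by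
      have := Nat.lt_pow_succ_log_self (b := 2) (by norm_num) (n + 1)
      exact lt_of_lt_of_le (Nat.lt_succ_self n) this.le
    have h3 : Real.log n ≤ Real.log ((2 : ℝ) ^ (Nat.log 2 (n + 1) + 1)) := by
      apply Real.log_le_log (by exact_mod_cast h)
      exact_mod_cast hlt.le
    rw [Real.log_pow] at h3
    have h4 : Real.log 2 ≤ 1 := by
      have := Real.log_two_lt_d9; linarith
    calc Real.log n ≤ ((Nat.log 2 (n + 1) + 1 : ℕ) : ℝ) * Real.log 2 := h3
      _ ≤ ((Nat.log 2 (n + 1) + 1 : ℕ) : ℝ) * 1 := by gcongr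
      _ = L n := by unfold L; ring
  have h3 := one_le_L n
  nlinarith

lemma succ_mul_H_le (n : ℕ) : ((n : ℝ) + 1) * H n ≤ 2 * g n := by
  unfold g
  have := H_le n
  have h3 : (0 : ℝ) ≤ (n : ℝ) + 1 := by positivity
  nlinarith

lemma summable_tau : Summable tau := by
  set f : ℕ → ℝ := fun m => ((m : ℝ) * ((Nat.log 2 m : ℝ) + 1) ^ 2)⁻¹ with hf
  have h1 : Summable f := by
    rw [← summable_condensed_iff_of_nonneg]
    · have : (fun k : ℕ => (2 : ℝ) ^ k * f (2 ^ k)) = fun k : ℕ => (((k + 1 : ℕ) : ℝ) ^ 2)⁻¹ := by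
        funext k
        simp only [hf]
        rw [Nat.log_pow (by norm_num)]
        push_cast
        field_simp
      rw [this]
      exact (summable_nat_add_iff 1 (f := fun n : ℕ => ((n : ℝ) ^ 2)⁻¹)).mpr
        (Real.summable_nat_pow_inv.mpr (by norm_num))
    · intro n; simp only [hf]; positivity
    · intro m n hm hmn
      simp only [hf]
      have h2 : Nat.log 2 m ≤ Nat.log 2 n := Nat.log_mono_right hmn
      have h3 : (0 : ℝ) < m := by exact_mod_cast hm
      apply inv_anti₀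
      · positivity
      · gcongr
  have h2 := (summable_nat_add_iff 1).mpr h1
  refine h2.congr (fun n => ?_)
  simp only [hf, tau, g, L]
  push_cast
  rfl

lemma not_summable_aux : ¬ Summable (fun n : ℕ => (((n : ℝ) + 1) * L n)⁻¹) := by
  set f : ℕ → ℝ := fun m => ((m : ℝ) * ((Nat.log 2 m : ℝ) + 1))⁻¹ with hf
  have h1 : ¬ Summable f := by
    rw [← summable_condensed_iff_of_nonneg]
    · have : (fun k : ℕ => (2 : ℝ) ^ k * f (2 ^ k)) = fun k : ℕ => (((k + 1 : ℕ) : ℝ))⁻¹ := by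
        funext k
        simp only [hf]
        rw [Nat.log_pow (by norm_num)]
        push_cast
        field_simp
      rw [this]
      intro h
      have := (summable_nat_add_iff 1 (f := fun n : ℕ => ((n : ℝ))⁻¹)).mp h
      exact Real.not_summable_natCast_inv this
    · intro n; simp only [hf]; positivity
    · intro m n hm hmn
      simp only [hf]
      have h2 : Nat.log 2 m ≤ Nat.log 2 n := Nat.log_mono_right hmn
      have h3 : (0 : ℝ) < m := by exact_mod_cast hm
      apply inv_anti₀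
      · positivity
      · gcongr
  intro h2
  apply h1
  rw [← summable_nat_add_iff 1]
  refine h2.congr (fun n => ?_)
  simp only [hf, L]
  push_cast
  rfl

/-- separation -/
lemma tau_sub_ge (n : ℕ) : tau n * tau (n + 1) ≤ tau n - tau (n + 1) := by
  unfold tau
  have h1 := g_pos n
  have h2 := g_pos (n + 1)
  have h3 := g_succ_ge n
  rw [← mul_inv, inv_sub_inv h1.ne' h2.ne']
  rw [inv_eq_one_div]
  gcongr
  linarith

lemma tau_succ_ge (n : ℕ) : tau n / 8 ≤ tau (n + 1) := by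
  unfold tau
  have h1 := g_pos n
  have h2 := g_pos (n + 1)
  have h3 := g_succ_le n
  rw [div_eq_mul_inv, ← mul_inv]
  apply inv_anti₀ h2
  linarith

lemma tau_sep {i j : ℕ} (h : i < j) : (tau i) ^ 2 / 8 ≤ tau i - tau j := by
  have h1 := tau_sub_ge i
  have h2 := tau_succ_ge i
  have h3 := tau_anti (Nat.succ_le_of_lt h)
  have h4 := tau_pos i
  have h5 : tau (i + 1) = tau (Nat.succ i) := rfl
  nlinarith

/-- The terms of the basic sum. -/
noncomputable def T (t : ℝ) (j : ℕ) : ℝ := tau j / ((tau j) ^ 2 + |t - tau j|)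

lemma T_den_pos (t : ℝ) (j : ℕ) : 0 < (tau j) ^ 2 + |t - tau j| := by
  have := tau_pos j
  positivity

lemma T_nonneg (t : ℝ) (j : ℕ) : 0 ≤ T t j :=
  div_nonneg (tau_pos j).le (T_den_pos t j).le

lemma T_le_g (t : ℝ) (j : ℕ) : T t j ≤ g j := by
  unfold T
  have h1 := tau_pos j
  have h2 := g_pos j
  have h3 : g j = tau j / (tau j) ^ 2 := by
    unfold tau; field_simp
  rw [h3]
  gcongr
  linarith [abs_nonneg (t - tau j)]

/-- `T t j ≤ X / |g j - X|`, `X = 1/t`, written with any lower bound `y ≤ |g j - X|`. -/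
lemma T_le_div {X : ℝ} (hX : 0 < X) (j : ℕ) {y : ℝ} (hy : 0 < y) (h : y ≤ |g j - X|) :
    T X⁻¹ j ≤ X / y := by
  unfold T
  have h1 := tau_pos j
  have h2 := g_pos j
  have h3 : |X⁻¹ - tau j| = |g j - X| / (X * g j) := by
    unfold tau
    rw [inv_sub_inv hX.ne' h2.ne', abs_div, abs_of_pos (mul_pos hX h2)]
  rw [div_le_div_iff₀ (T_den_pos _ _) hy, h3]
  have h4 : tau j * y ≤ tau j * |g j - X| := by gcongr
  have h5 : X * (|g j - X| / (X * g j)) = tau j * |g j - X| := by
    unfold tau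
    field_simp
  have h6 : 0 ≤ X * (tau j) ^ 2 := by positivity
  nlinarith

lemma exists_K {X : ℝ} (hX : 1 / 2 ≤ X) :
    ∃ K : ℕ, X < g K ∧ g K ≤ 8 * X ∧ ∀ j < K, g j ≤ X := by
  have hex : ∃ n : ℕ, X < g n := by
    obtain ⟨n, hn⟩ := exists_nat_gt X
    exact ⟨n, by have := le_g n; linarith⟩
  classical
  refine ⟨Nat.find hex, Nat.find_spec hex, ?_, ?_⟩
  · rcases Nat.eq_zero_or_pos (Nat.find hex) with h | h
    · rw [h, g_zero]; linarith
    · obtain ⟨k, hk⟩ : ∃ k, Nat.find hex = k + 1 := ⟨Nat.find hex - 1, by omega⟩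
      have hk2 : ¬ X < g k := Nat.find_min hex (by omega)
      have h3 := g_succ_le k
      rw [hk]
      push Not at hk2
      linarith
  · intro j hj
    have := Nat.find_min hex hj
    push Not at this
    exact this

/-- The constant of the basic estimate. -/
noncomputable def C0 : ℝ := 27 + 2 * ∑' j, tau j

lemma C0_pos : 0 < C0 := by
  unfold C0
  have : 0 ≤ ∑' j, tau j := tsum_nonneg (fun j => (tau_pos j).le)
  linarith

lemma sum_T_le {X : ℝ} (hX : 1 / 2 ≤ X) (N : ℕ) : ∑ j ∈ range N, T X⁻¹ j ≤ C0 * X := by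
  obtain ⟨K, hK1, hK2, hK3⟩ := exists_K hX
  have hX0 : 0 < X := by linarith
  have e1 : ∑ j ∈ range N, T X⁻¹ j ≤ ∑ j ∈ range (K + 1 + K + N), T X⁻¹ j := by
    apply sum_le_sum_of_subset_of_nonneg
    · intro x hx; simp only [mem_range] at *; omega
    · intro i _ _; exact T_nonneg _ _
  rw [sum_range_add, sum_range_add, sum_range_succ] at e1
  -- first block
  have b1 : ∑ j ∈ range K, T X⁻¹ j ≤ 3 * X := by
    rcases Nat.eq_zero_or_pos K with h | h
    · subst h; simp; linarith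
    obtain ⟨k, rfl⟩ : ∃ k, K = k + 1 := ⟨K - 1, by omega⟩
    rw [sum_range_succ]
    have hgk : g k ≤ X := hK3 k (by omega)
    have c1 : T X⁻¹ k ≤ X := (T_le_g _ _).trans hgk
    have c2 : ∑ j ∈ range k, T X⁻¹ j ≤ ((k : ℝ) + 1) * H k := by
      have : ((k : ℝ) + 1) * H k = ∑ j ∈ range k, ((k : ℝ) + 1) * (((k - 1 - j : ℕ) : ℝ) + 1)⁻¹ := by
        rw [← mul_sum]
        congr 1
        unfold H
        rw [← sum_range_reflect]
      rw [this]
      apply sum_le_sum
      intro j hj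
      have hj' : j < k := mem_range.mp hj
      have hcast : (((k - 1 - j : ℕ) : ℝ) + 1) = (k : ℝ) - j := by
        have : (k - 1 - j) + 1 + j = k := by omega
        have h2 : (((k - 1 - j) + 1 + j : ℕ) : ℝ) = (k : ℝ) := by rw [this]
        push_cast at h2
        linarith
      rw [hcast]
      have hkj : (0 : ℝ) < (k : ℝ) - j := by
        have : (j : ℝ) < k := by exact_mod_cast hj'
        linarith
      have hr := g_ratio hj'.le
      have hk1 : (0 : ℝ) < (k : ℝ) + 1 := by positivity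
      have hlow : X * ((k : ℝ) - j) / ((k : ℝ) + 1) ≤ |g j - X| := by
        have : X * ((k : ℝ) - j) / ((k : ℝ) + 1) ≤ X - g j := by
          rw [div_le_iff₀ hk1]
          have : g k * ((j : ℝ) + 1) ≤ X * ((j : ℝ) + 1) := by gcongr
          nlinarith
        refine this.trans ?_
        rw [abs_sub_comm]
        exact le_abs_self _
      have hypos : 0 < X * ((k : ℝ) - j) / ((k : ℝ) + 1) := by positivity
      refine (T_le_div hX0 j hypos hlow).trans (le_of_eq ?_)
      field_simp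
    have c3 := succ_mul_H_le k
    linarith
  have b2 : T X⁻¹ K ≤ 8 * X := (T_le_g _ _).trans hK2
  have b3 : ∑ x ∈ range K, T X⁻¹ (K + 1 + x) ≤ 16 * X := by
    have : ∑ x ∈ range K, T X⁻¹ (K + 1 + x) ≤ ((K : ℝ) + 1) * H K := by
      unfold H
      rw [mul_sum]
      apply sum_le_sum
      intro x hx
      have hr := g_ratio (i := K) (j := K + 1 + x) (by omega)
      push_cast at hr
      have hx0 : (0 : ℝ) ≤ x := Nat.cast_nonneg _
      have hK0 : (0 : ℝ) ≤ K := Nat.cast_nonneg _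
      have hlow : X * ((x : ℝ) + 1) / ((K : ℝ) + 1) ≤ |g (K + 1 + x) - X| := by
        refine le_trans ?_ (le_abs_self _)
        rw [div_le_iff₀ (by positivity)]
        have : X * ((K : ℝ) + 1 + x + 1) ≤ g K * ((K : ℝ) + 1 + x + 1) := by gcongr
        nlinarith
      have hypos : 0 < X * ((x : ℝ) + 1) / ((K : ℝ) + 1) := by positivity
      refine (T_le_div hX0 _ hypos hlow).trans (le_of_eq ?_)
      field_simp
    have c3 := succ_mul_H_le K
    linarith
  have b4 : ∑ x ∈ range N, T X⁻¹ (K + 1 + K + x) ≤ 2 * (∑' j, tau j) * X := by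
    have : ∀ x ∈ range N, T X⁻¹ (K + 1 + K + x) ≤ 2 * X * tau (K + 1 + K + x) := by
      intro x _
      have hr := g_ratio (i := K) (j := K + 1 + K + x) (by omega)
      push_cast at hr
      have hx0 : (0 : ℝ) ≤ x := Nat.cast_nonneg _
      have hK0 : (0 : ℝ) ≤ K := Nat.cast_nonneg _
      have hg := g_pos (K + 1 + K + x)
      have hgK := g_pos K
      have h2 : 2 * g K ≤ g (K + 1 + K + x) := by
        have h5 : g K * (2 * ((K : ℝ) + 1)) ≤ g (K + 1 + K + x) * ((K : ℝ) + 1) := by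
          refine le_trans ?_ hr
          gcongr
          linarith
        have h6 : (0 : ℝ) < (K : ℝ) + 1 := by positivity
        nlinarith
      have hlow : g (K + 1 + K + x) / 2 ≤ |g (K + 1 + K + x) - X| := by
        refine le_trans ?_ (le_abs_self _)
        linarith
      refine (T_le_div hX0 _ (by positivity) hlow).trans (le_of_eq ?_)
      unfold tau
      field_simp
    refine (sum_le_sum this).trans ?_
    rw [← mul_sum]
    have h7 : ∑ x ∈ range N, tau (K + 1 + K + x) ≤ ∑' j, tau j := by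
      have h8 : ∑ x ∈ range N, tau (K + 1 + K + x) ≤ ∑ x ∈ range (K + 1 + K + N), tau x := by
        rw [sum_range_add (n := K + 1 + K)]
        have : 0 ≤ ∑ x ∈ range (K + 1 + K), tau x := sum_nonneg (fun i _ => (tau_pos i).le)
        linarith
      exact h8.trans (summable_tau.sum_le_tsum _ (fun i _ => (tau_pos i).le))
    nlinarith
  unfold C0
  nlinarith

lemma sqrt_gap_ge (k : ℕ) :
    (1 / 3) * (((k : ℝ) + 1) * L k)⁻¹ ≤ Real.sqrt (tau k - tau (k + 1)) := by
  apply Real.le_sqrt_of_sq_le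
  have h1 := g_pos k
  have h2 := g_pos (k + 1)
  have h3 := g_succ_le k
  have hL := one_le_L k
  have hk : (0 : ℝ) ≤ k := Nat.cast_nonneg _
  have h4 : (L k) ^ 2 ≤ g (k + 1) - g k := by
    unfold g
    have h1 := L_mono (Nat.le_succ k)
    have h3 : (L k) ^ 2 ≤ (L (k + 1)) ^ 2 := by gcongr
    push_cast
    nlinarith
  have e1 : tau k - tau (k + 1) = (g (k + 1) - g k) / (g k * g (k + 1)) := by
    unfold tau
    rw [inv_sub_inv h1.ne' h2.ne']
  have e2 : (L k) ^ 2 / (g k * (8 * g k)) ≤ tau k - tau (k + 1) := by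
    rw [e1]
    have h0 : 0 ≤ (L k) ^ 2 := by positivity
    have h0' : 0 ≤ g (k + 1) - g k := h0.trans h4
    gcongr
  have e3 : (L k) ^ 2 / (g k * (8 * g k)) = (1 / 8) * ((((k : ℝ) + 1) * L k)⁻¹) ^ 2 := by
    unfold g
    have : L k ≠ 0 := by positivity
    field_simp
  have h5 : 0 ≤ ((((k : ℝ) + 1) * L k)⁻¹) ^ 2 := by positivity
  rw [e3] at e2
  nlinarith

end PK
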