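import Pool.Agent.N292.PK.Pts
import Pool.Agent.N292.PK.Ker

/-! The function `V = 1/(1-z) + c ∑ W k` and the peak function `1 - 1/(1+V)`. -/

namespace PK

open Complex Filter Topology

noncomputable def sk (k : ℕ) (z : ℂ) : ℂ := 1 - z * (starRingEnd ℂ) (a k)

noncomputable def W (k : ℕ) (z : ℂ) : ℂ := ker (tau k) (sk k z)

noncomputable def cc : ℝ := 1 / (16 * C0)

noncomputable def V (z : ℂ) : ℂ := (1 - z)⁻¹ + (cc : ℂ) * ∑' k, W k z

lemma cc_pos : 0 < cc := by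
  unfold cc
  have := C0_pos
  positivity

lemma cc_mul : cc * C0 = 1 / 16 := by
  unfold cc
  have := C0_pos
  field_simp

lemma conj_a_mul (k : ℕ) : (starRingEnd ℂ) (a k) * a k = 1 := by
  rw [mul_comm, Complex.mul_conj, Complex.normSq_eq_norm_sq, norm_a]
  norm_num

lemma sk_eq (k : ℕ) (z : ℂ) : sk k z = (starRingEnd ℂ) (a k) * (a k - z) := by
  unfold sk
  linear_combination (-1) * conj_a_mul k

lemma norm_sk (k : ℕ) (z : ℂ) : ‖sk k z‖ = ‖z - a k‖ := by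
  rw [sk_eq, norm_mul, RCLike.norm_conj, norm_a, one_mul, norm_sub_rev]

lemma norm_sk_sub (k : ℕ) (z z' : ℂ) : ‖sk k z - sk k z'‖ = ‖z - z'‖ := by
  have : sk k z - sk k z' = (z' - z) * (starRingEnd ℂ) (a k) := by
    unfold sk; ring
  rw [this, norm_mul, RCLike.norm_conj, norm_a, mul_one, norm_sub_rev]

lemma sk_re (k : ℕ) {z : ℂ} (hz : ‖z‖ ≤ 1) : 0 ≤ (sk k z).re := by
  unfold sk
  have h1 : (z * (starRingEnd ℂ) (a k)).re ≤ ‖z * (starRingEnd ℂ) (a k)‖ := Complex.re_le_norm _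
  rw [norm_mul, RCLike.norm_conj, norm_a, mul_one] at h1
  rw [Complex.sub_re, Complex.one_re]
  linarith

lemma sk_re_pos (k : ℕ) {z : ℂ} (hz : ‖z‖ < 1) : 0 < (sk k z).re := by
  unfold sk
  have h1 : (z * (starRingEnd ℂ) (a k)).re ≤ ‖z * (starRingEnd ℂ) (a k)‖ := Complex.re_le_norm _
  rw [norm_mul, RCLike.norm_conj, norm_a, mul_one] at h1
  rw [Complex.sub_re, Complex.one_re]
  linarith

section pt

variable {z : ℂ} (hz : ‖z‖ ≤ 1) (hE : z ∉ E)

include hE in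
lemma ne_a (k : ℕ) : z ≠ a k := by
  rintro rfl
  exact hE (a_mem_E k)

include hE in
lemma ne_one : z ≠ 1 := by
  rintro rfl
  exact hE one_mem_E

include hE in
lemma sk_ne (k : ℕ) : sk k z ≠ 0 := by
  rw [← norm_pos_iff, norm_sk, norm_pos_iff, sub_ne_zero]
  exact ne_a hE k

include hE in
lemma t_pos : 0 < ‖1 - z‖ := by
  rw [norm_pos_iff, sub_ne_zero]
  exact (ne_one hE).symm

include hz in
lemma t_le : ‖1 - z‖ ≤ 2 := by
  refine (norm_sub_le _ _).trans ?_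
  simp
  linarith

include hE in
lemma exists_delta : ∃ δ > 0, ∀ k, δ ≤ ‖z - a k‖ := by
  have h1 : 0 < Metric.infDist z E :=
    (isClosed_E.notMem_iff_infDist_pos ⟨1, one_mem_E⟩).mp hE
  refine ⟨Metric.infDist z E, h1, fun k => ?_⟩
  rw [← dist_eq_norm]
  exact Metric.infDist_le_dist_of_mem (a_mem_E k)

include hz hE in
lemma W_norm_le (k : ℕ) : ‖W k z‖ ≤ tau k / ‖z - a k‖ := by
  rw [← norm_sk]
  exact ker_norm_le (tau_pos k) (sk_re k hz) (sk_ne hE k)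

include hz hE in
lemma summable_norm_W : Summable (fun k => ‖W k z‖) := by
  obtain ⟨δ, hδ, h⟩ := exists_delta hE
  refine Summable.of_nonneg_of_le (fun _ => norm_nonneg _) (fun k => ?_)
    (summable_tau.mul_right δ⁻¹)
  refine (W_norm_le hz hE k).trans ?_
  rw [div_eq_mul_inv]
  have := tau_pos k
  have := h k
  gcongr

include hz hE in
lemma summable_W : Summable (fun k => W k z) := (summable_norm_W hz hE).of_norm

include hz hE in
lemma half_le_inv : 1 / 2 ≤ ‖1 - z‖⁻¹ := by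
  rw [one_div]
  exact inv_anti₀ (t_pos hE) (t_le hz)

include hz hE in
lemma summable_T : Summable (fun j => T ‖1 - z‖ j) := by
  apply summable_of_sum_range_le (c := C0 * ‖1 - z‖⁻¹) (fun j => T_nonneg _ _)
  intro n
  have := sum_T_le (half_le_inv hz hE) n
  rwa [inv_inv] at this

include hz hE in
lemma tsum_T_le : ∑' j, T ‖1 - z‖ j ≤ C0 * ‖1 - z‖⁻¹ := by
  apply (summable_T hz hE).tsum_le_of_sum_range_le
  intro n
  have := sum_T_le (half_le_inv hz hE) n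
  rwa [inv_inv] at this

include hz in
lemma W_re_nonneg (k : ℕ) : 0 ≤ (W k z).re := ker_re_nonneg (tau_pos k) (sk_re k hz)

include hz hE in
lemma W_im_ge (k : ℕ) : -(T ‖1 - z‖ k) ≤ (W k z).im := by
  refine le_trans ?_ (ker_im_ge (tau_pos k) (sk_re k hz) (sk_ne hE k))
  rw [norm_sk, neg_le_neg_iff]
  unfold T
  have h1 := norm_sub_a_ge z k
  have h2 := T_den_pos ‖1 - z‖ k
  have h3 := tau_pos k
  gcongr

include hz in
lemma one_sub_re : ‖1 - z‖ ^ 2 / 2 ≤ (1 - z).re := by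
  have h1 : ‖z‖ ^ 2 ≤ 1 := by
    have := norm_nonneg z
    nlinarith
  rw [← Complex.normSq_eq_norm_sq, Complex.normSq_apply] at h1 ⊢
  simp only [Complex.sub_re, Complex.one_re, Complex.sub_im, Complex.one_im]
  nlinarith

include hz hE in
lemma V_re_ge : (1 - z).re / ‖1 - z‖ ^ 2 ≤ (V z).re := by
  unfold V
  rw [Complex.add_re, Complex.inv_re, Complex.re_ofReal_mul, Complex.normSq_eq_norm_sq,
    Complex.re_tsum (summable_W hz hE)]
  have h1 : 0 ≤ ∑' k, (W k z).re := tsum_nonneg (fun k => W_re_nonneg hz k)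
  have := cc_pos
  have : 0 ≤ cc * ∑' k, (W k z).re := by positivity
  linarith

include hz hE in
lemma V_re_nonneg : 0 < (V z).re := by
  have h1 := V_re_ge hz hE
  have h2 := one_sub_re hz
  have h3 := t_pos hE
  have h4 : 1 / 2 ≤ (1 - z).re / ‖1 - z‖ ^ 2 := by
    rw [le_div_iff₀ (by positivity)]
    linarith
  linarith

include hz hE in
/-- The main lower bound. -/
lemma V_norm_ge : 1 / (2 * ‖1 - z‖) ≤ ‖V z‖ := by
  have ht := t_pos hE
  set t := ‖1 - z‖ with htdef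
  by_cases hc : t / 2 ≤ (1 - z).re
  · refine le_trans ?_ (Complex.re_le_norm _)
    refine le_trans ?_ (V_re_ge hz hE)
    rw [← htdef, div_le_div_iff₀ (by positivity) (by positivity)]
    nlinarith
  push Not at hc
  have hre : 0 ≤ (1 - z).re := le_trans (by positivity) (one_sub_re hz)
  have hsq : t ^ 2 = (1 - z).re ^ 2 + (1 - z).im ^ 2 := by
    rw [htdef, ← Complex.normSq_eq_norm_sq, Complex.normSq_apply]; ring
  have him : (1 - z).im = - z.im := by simp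
  have himsq : (4 / 5 * t) ^ 2 ≤ z.im ^ 2 := by
    rw [him] at hsq
    nlinarith
  have hTs := tsum_T_le hz hE
  have hC := cc_mul
  have hcc := cc_pos
  rcases le_or_gt 0 z.im with hi | hi
  · have hi2 : 4 / 5 * t ≤ z.im := by
      apply le_of_sq_le_sq himsq hi
    have h1 : (V z).im = z.im / t ^ 2 + cc * ∑' k, (W k z).im := by
      unfold V
      rw [Complex.add_im, Complex.inv_im, Complex.im_ofReal_mul, Complex.normSq_eq_norm_sq,
        Complex.im_tsum (summable_W hz hE), him, neg_neg]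
    have h2 : -(∑' k, T t k) ≤ ∑' k, (W k z).im := by
      rw [← tsum_neg]
      apply Summable.tsum_le_tsum (fun k => W_im_ge hz hE k) (summable_T hz hE).neg
      exact (Complex.hasSum_im (summable_W hz hE).hasSum).summable
    have h3 : (4 / 5) / t ≤ z.im / t ^ 2 := by
      rw [div_le_div_iff₀ ht (by positivity)]
      nlinarith
    have h4 : cc * ∑' k, T t k ≤ (1 / 16) * t⁻¹ := by
      have : cc * ∑' k, T t k ≤ cc * (C0 * t⁻¹) := by gcongr
      rw [← mul_assoc, hC] at this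
      exact this
    have h5 : -(cc * ∑' k, T t k) ≤ cc * ∑' k, (W k z).im := by
      have := mul_le_mul_of_nonneg_left h2 hcc.le
      linarith
    refine le_trans ?_ (Complex.abs_im_le_norm _)
    refine le_trans ?_ (le_abs_self _)
    rw [h1]
    have h6 : 1 / (2 * t) = (1 / 2) * t⁻¹ := by field_simp
    rw [h6]
    rw [div_eq_mul_inv] at h3
    have h7 : 0 < t⁻¹ := by positivity
    linarith
  · have hi2 : 4 / 5 * t ≤ -z.im := by
      apply le_of_sq_le_sq _ (by linarith)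
      rw [neg_sq]; exact himsq
    have hW : ∀ k, ‖W k z‖ ≤ 3 * T t k := by
      intro k
      refine (W_norm_le hz hE k).trans ?_
      have h1 : 4 / 5 * (tau k + t) ≤ ‖z - a k‖ := by
        have h2 : |(z - a k).im| ≤ ‖z - a k‖ := Complex.abs_im_le_norm _
        have h3 := neg_le_abs (z - a k).im
        rw [Complex.sub_im] at h3 h2
        have := im_a_ge k
        linarith
      unfold T
      have h4 := tau_pos k
      have h5 := tau_le_one k
      have h6 : (tau k) ^ 2 + |t - tau k| ≤ 2 * (tau k + t) := by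
        have : |t - tau k| ≤ t + tau k := by
          rw [abs_le]; constructor <;> linarith
        nlinarith
      have h7 := T_den_pos t k
      have h8 : 0 < tau k + t := by positivity
      have h9 : 0 < ‖z - a k‖ := lt_of_lt_of_le (by positivity) h1
      rw [← mul_div_assoc, div_le_div_iff₀ h9 h7]
      nlinarith
    have hsum : ‖∑' k, W k z‖ ≤ 3 * (C0 * t⁻¹) := by
      refine (norm_tsum_le_tsum_norm (summable_norm_W hz hE)).trans ?_
      refine ((summable_norm_W hz hE).tsum_le_tsum hW ((summable_T hz hE).mul_left 3)).trans ?_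
      rw [tsum_mul_left]
      gcongr
    have h1 : ‖(1 - z)⁻¹‖ ≤ ‖V z‖ + ‖(cc : ℂ) * ∑' k, W k z‖ := by
      have : (1 - z)⁻¹ = V z - (cc : ℂ) * ∑' k, W k z := by unfold V; ring
      rw [this]; exact norm_sub_le _ _
    rw [norm_inv, norm_mul, Complex.norm_real, Real.norm_of_nonneg hcc.le] at h1
    have h2 : cc * ‖∑' k, W k z‖ ≤ cc * (3 * (C0 * t⁻¹)) := by gcongr
    have h3 : cc * (3 * (C0 * t⁻¹)) = 3 / 16 * t⁻¹ := by
      linear_combination 3 * t⁻¹ * hC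
    have h6 : 1 / (2 * t) = (1 / 2) * t⁻¹ := by field_simp
    rw [h6]
    have h7 : 0 < t⁻¹ := by positivity
    rw [← htdef] at h1
    linarith

include hz hE in
lemma inv_t_le : ‖1 - z‖⁻¹ ≤ 2 * ‖V z‖ := by
  have h := V_norm_ge hz hE
  have ht := t_pos hE
  have h6 : 1 / (2 * ‖1 - z‖) = (1 / 2) * ‖1 - z‖⁻¹ := by field_simp
  rw [h6] at h
  linarith

/-- far terms -/
lemma W_far (hz : ‖z‖ ≤ 1) (hE : z ∉ E) {k : ℕ} (hk : (tau k) ^ 2 / 32 < ‖z - a k‖) :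
    ‖W k z‖ ≤ 33 * T ‖1 - z‖ k := by
  refine (W_norm_le hz hE k).trans ?_
  unfold T
  have h1 := norm_sub_a_ge z k
  have h4 := tau_pos k
  have h7 := T_den_pos ‖1 - z‖ k
  have h9 : 0 < ‖z - a k‖ := lt_of_le_of_lt (by positivity) hk
  rw [← mul_div_assoc, div_le_div_iff₀ h9 h7]
  nlinarith

/-- At most one near term. -/
lemma near_unique {i j : ℕ} (hij : i < j) (hi : ‖z - a i‖ ≤ (tau i) ^ 2 / 32) :
    (tau j) ^ 2 / 32 < ‖z - a j‖ := by
  by_contra hcon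
  push Not at hcon
  have h1 : ‖1 - a i‖ ≤ ‖1 - a j‖ + (‖z - a j‖ + ‖z - a i‖) := by
    have : 1 - a i = (1 - a j) + (-(z - a j) + (z - a i)) := by ring
    rw [this]
    refine (norm_add_le _ _).trans ?_
    gcongr
    refine (norm_add_le _ _).trans ?_
    rw [norm_neg]
  rw [norm_one_sub_a, norm_one_sub_a] at h1
  have h2 := tau_sep hij
  have h3 := tau_anti hij.le
  have h4 := tau_pos j
  have h5 : (tau j) ^ 2 ≤ (tau i) ^ 2 := by gcongr
  have h6 := tau_pos i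
  have h7 : 0 < (tau i) ^ 2 := by positivity
  linarith

lemma exists_j0 (hz : ‖z‖ ≤ 1) (hE : z ∉ E) :
    ∃ j0, ∀ i, i ≠ j0 → ‖W i z‖ ≤ 33 * T ‖1 - z‖ i := by
  by_cases h : ∃ j, ‖z - a j‖ ≤ (tau j) ^ 2 / 32
  · obtain ⟨j, hj⟩ := h
    refine ⟨j, fun i hi => W_far hz hE ?_⟩
    rcases lt_or_gt_of_ne hi with h1 | h1
    · by_contra h2
      push Not at h2
      exact absurd hj (not_le.mpr (near_unique h1 h2))
    · exact near_unique h1 hj
  · push Not at h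
    exact ⟨0, fun i _ => W_far hz hE (h i)⟩

/-- The constant in the bound of `∑ ‖W j‖`. -/
noncomputable def K1 : ℝ := 194 * C0

lemma K1_pos : 0 < K1 := by
  unfold K1
  have := C0_pos
  positivity

include hz hE in
lemma tsum_norm_W_le : ∑' j, ‖W j z‖ ≤ K1 * ‖V z‖ := by
  obtain ⟨j0, hj0⟩ := exists_j0 hz hE
  have hs := summable_norm_W hz hE
  have hsW := summable_W hz hE
  have hcc := cc_pos
  have hC := cc_mul
  have ht := inv_t_le hz hE
  have hC0 := C0_pos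
  -- the rest
  set R := ∑' j, (if j = j0 then (0 : ℝ) else ‖W j z‖) with hR
  have hRs : Summable (fun j => (if j = j0 then (0 : ℝ) else ‖W j z‖)) := by
    refine Summable.of_nonneg_of_le (fun j => ?_) (fun j => ?_) hs
    · split_ifs
      · exact le_rfl
      · exact norm_nonneg _
    · split_ifs
      · exact norm_nonneg _
      · exact le_rfl
  have hR1 : R ≤ 66 * C0 * ‖V z‖ := by
    have h1 : R ≤ ∑' j, 33 * T ‖1 - z‖ j := by
      refine hRs.tsum_le_tsum (fun j => ?_) ((summable_T hz hE).mul_left 33)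
      split_ifs with h
      · exact mul_nonneg (by norm_num) (T_nonneg _ _)
      · exact hj0 j h
    rw [tsum_mul_left] at h1
    have h2 := tsum_T_le hz hE
    have h3 : C0 * ‖1 - z‖⁻¹ ≤ C0 * (2 * ‖V z‖) := by gcongr
    linarith
  have e1 : ∑' j, ‖W j z‖ = ‖W j0 z‖ + R := by
    rw [hR]
    exact hs.tsum_eq_add_tsum_ite j0
  have e2 : ∑' j, W j z = W j0 z + ∑' j, (if j = j0 then (0 : ℂ) else W j z) :=
    hsW.tsum_eq_add_tsum_ite j0
  have e3 : ‖∑' j, (if j = j0 then (0 : ℂ) else W j z)‖ ≤ R := by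
    rw [hR]
    have : (fun j => (if j = j0 then (0 : ℝ) else ‖W j z‖)) =
        fun j => ‖(if j = j0 then (0 : ℂ) else W j z)‖ := by
      funext j; split_ifs <;> simp
    rw [this] at hRs ⊢
    exact norm_tsum_le_tsum_norm hRs
  have e4 : (cc : ℂ) * W j0 z = V z - (1 - z)⁻¹ -
      (cc : ℂ) * ∑' j, (if j = j0 then (0 : ℂ) else W j z) := by
    unfold V
    rw [e2]; ring
  have e5 : cc * ‖W j0 z‖ ≤ ‖V z‖ + ‖1 - z‖⁻¹ + cc * R := by
    have h1 : ‖(cc : ℂ) * W j0 z‖ = cc * ‖W j0 z‖ := by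
      rw [norm_mul, Complex.norm_real, Real.norm_of_nonneg hcc.le]
    rw [← h1, e4]
    refine (norm_sub_le _ _).trans ?_
    rw [norm_mul, Complex.norm_real, Real.norm_of_nonneg hcc.le]
    refine add_le_add ((norm_sub_le _ _).trans ?_) ?_
    · rw [norm_inv]
    · gcongr
  have e6 : cc * R ≤ 66 / 16 * ‖V z‖ := by
    have : cc * R ≤ cc * (66 * C0 * ‖V z‖) := by gcongr
    have h2 : cc * (66 * C0 * ‖V z‖) = 66 / 16 * ‖V z‖ := by
      linear_combination 66 * ‖V z‖ * hC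
    linarith
  have e7 : cc * ‖W j0 z‖ ≤ 8 * ‖V z‖ := by
    have := norm_nonneg (V z)
    linarith
  have e8 : ‖W j0 z‖ ≤ 128 * C0 * ‖V z‖ := by
    have h1 : (16 * C0) * (cc * ‖W j0 z‖) = ‖W j0 z‖ := by
      linear_combination 16 * ‖W j0 z‖ * hC
    have h2 : (16 * C0) * (cc * ‖W j0 z‖) ≤ (16 * C0) * (8 * ‖V z‖) := by gcongr
    rw [h1] at h2
    linarith
  rw [e1]
  unfold K1
  linarith

include hz hE in
lemma W_norm_le_V (k : ℕ) : ‖W k z‖ ≤ K1 * ‖V z‖ :=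
  ((summable_norm_W hz hE).le_tsum k (fun _ _ => norm_nonneg _)).trans (tsum_norm_W_le hz hE)

include hz hE in
/-- `‖W‖ ‖u‖ / τ ≤ 4 ‖V‖`. -/
lemma W_mul_u_le (k : ℕ) : ‖W k z‖ * (‖sq (sk k z)‖ / tau k) ≤ 4 * ‖V z‖ := by
  have h1 := ker_mul_le (tau_pos k) (sk_re k hz) (sk_ne hE k)
  have h2 : 1 / ((tau k) ^ 2 + ‖sk k z‖) ≤ (2 * ‖1 - z‖⁻¹) ^ 2 := by
    rw [norm_sk]
    have h3 := norm_sub_a_ge z k
    have ht := t_pos hE
    have ht2 := t_le hz
    have h4 : (‖1 - z‖ / 2) ^ 2 ≤ (tau k) ^ 2 + ‖z - a k‖ := by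
      rcases le_total (‖1 - z‖ / 2) (tau k) with h | h
      · have : (‖1 - z‖ / 2) ^ 2 ≤ (tau k) ^ 2 := by gcongr
        linarith [norm_nonneg (z - a k)]
      · have h5 := (abs_le.mp (le_refl |‖1 - z‖ - tau k|)).2
        have h6 : ‖1 - z‖ / 2 ≤ ‖z - a k‖ := by linarith
        have h7 := sq_nonneg (tau k)
        nlinarith
    have h8 : (2 * ‖1 - z‖⁻¹) ^ 2 = 1 / (‖1 - z‖ / 2) ^ 2 := by
      field_simp
    rw [h8]
    apply one_div_le_one_div_of_le (by positivity) h4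
  have h3 : (‖W k z‖ * (‖sq (sk k z)‖ / tau k)) ^ 2 ≤ (2 * ‖1 - z‖⁻¹) ^ 2 := h1.trans h2
  have h4 : ‖W k z‖ * (‖sq (sk k z)‖ / tau k) ≤ 2 * ‖1 - z‖⁻¹ := by
    apply le_of_sq_le_sq h3
    positivity
  have := inv_t_le hz hE
  linarith

end pt

/-- the Hölder constant of `V` -/
noncomputable def K2 : ℝ := 8 + cc * (2 * K1 ^ 2 + 8 * K1)

lemma sq_diff_le {k : ℕ} {z z' : ℂ} (hz : ‖z‖ ≤ 1) (hz' : ‖z'‖ ≤ 1) :
    ‖sq (sk k z) - sq (sk k z')‖ ≤ Real.sqrt ‖z - z'‖ := by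
  apply Real.le_sqrt_of_sq_le
  rw [← norm_sk_sub k z z']
  exact sq_sub_le (sk_re k hz) (sk_re k hz')

lemma V_sub {z z' : ℂ} (hz : ‖z‖ ≤ 1) (hE : z ∉ E) (hz' : ‖z'‖ ≤ 1) (hE' : z' ∉ E) :
    ‖V z - V z'‖ ≤ K2 * Real.sqrt ‖z - z'‖ * (‖V z‖ * ‖V z'‖) := by
  set d := Real.sqrt ‖z - z'‖ with hd
  have hd0 : 0 ≤ d := Real.sqrt_nonneg _
  have hdsq : ‖z - z'‖ = d ^ 2 := (Real.sq_sqrt (norm_nonneg _)).symm
  have hd2 : d ≤ 2 := by
    have h1 : ‖z - z'‖ ≤ 2 := (norm_sub_le _ _).trans (by linarith)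
    rw [hdsq] at h1
    nlinarith
  have hs := summable_norm_W hz hE
  have hs' := summable_norm_W hz' hE'
  have hK1 := K1_pos
  have hcc := cc_pos
  set S := ∑' j, ‖W j z‖ with hS
  set S' := ∑' j, ‖W j z'‖ with hS'
  have hS0 : 0 ≤ S := tsum_nonneg (fun _ => norm_nonneg _)
  have hS0' : 0 ≤ S' := tsum_nonneg (fun _ => norm_nonneg _)
  have hSK : S ≤ K1 * ‖V z‖ := tsum_norm_W_le hz hE
  have hSK' : S' ≤ K1 * ‖V z'‖ := tsum_norm_W_le hz' hE'
  -- termwise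
  have hterm : ∀ j, ‖W j z - W j z'‖ ≤
      d * ((2 * S' + 4 * ‖V z'‖) * ‖W j z‖ + 4 * ‖V z‖ * ‖W j z'‖) := by
    intro j
    have h1 := ker_sub (tau_pos j) (sk_re j hz) (sk_re j hz') (sk_ne hE j) (sk_ne hE' j)
    have h2 : ‖sq (sk j z) - sq (sk j z')‖ ≤ d := sq_diff_le hz hz'
    have h3 := W_mul_u_le hz hE j
    have h4 := W_mul_u_le hz' hE' j
    have h5 : ‖W j z'‖ ≤ S' := hs'.le_tsum j (fun _ _ => norm_nonneg _)
    have hτ := tau_pos j
    change ‖W j z - W j z'‖ ≤ ‖W j z‖ * ‖W j z'‖ *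
      (‖sq (sk j z) - sq (sk j z')‖ * (2 + (‖sq (sk j z)‖ + ‖sq (sk j z')‖) / tau j)) at h1
    have hw := norm_nonneg (W j z)
    have hw' := norm_nonneg (W j z')
    calc ‖W j z - W j z'‖ ≤ ‖W j z‖ * ‖W j z'‖ *
          (d * (2 + (‖sq (sk j z)‖ + ‖sq (sk j z')‖) / tau j)) := by
            refine h1.trans ?_
            gcongr
      _ = d * (2 * (‖W j z‖ * ‖W j z'‖) + (‖W j z‖ * (‖sq (sk j z)‖ / tau j)) * ‖W j z'‖ +
            ‖W j z‖ * (‖W j z'‖ * (‖sq (sk j z')‖ / tau j))) := by ring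
      _ ≤ d * (2 * (‖W j z‖ * S') + (4 * ‖V z‖) * ‖W j z'‖ + ‖W j z‖ * (4 * ‖V z'‖)) := by
            gcongr
      _ = d * ((2 * S' + 4 * ‖V z'‖) * ‖W j z‖ + 4 * ‖V z‖ * ‖W j z'‖) := by ring
  have hsb : Summable (fun j => d * ((2 * S' + 4 * ‖V z'‖) * ‖W j z‖ + 4 * ‖V z‖ * ‖W j z'‖)) :=
    ((hs.mul_left _).add (hs'.mul_left _)).mul_left _
  have hsn : Summable (fun j => ‖W j z - W j z'‖) :=
    Summable.of_nonneg_of_le (fun _ => norm_nonneg _) hterm hsb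
  have hsum : ‖∑' j, W j z - ∑' j, W j z'‖ ≤ d * ((2 * S' + 4 * ‖V z'‖) * S + 4 * ‖V z‖ * S') := by
    rw [← (summable_W hz hE).tsum_sub (summable_W hz' hE')]
    refine (norm_tsum_le_tsum_norm hsn).trans ?_
    refine (hsn.tsum_le_tsum hterm hsb).trans (le_of_eq ?_)
    rw [tsum_mul_left, ((hs.mul_left _).tsum_add (hs'.mul_left _)), tsum_mul_left, tsum_mul_left]
  have hsum2 : ‖∑' j, W j z - ∑' j, W j z'‖ ≤ d * ((2 * K1 ^ 2 + 8 * K1) * (‖V z‖ * ‖V z'‖)) := by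
    refine hsum.trans ?_
    have hv := norm_nonneg (V z)
    have hv' := norm_nonneg (V z')
    calc d * ((2 * S' + 4 * ‖V z'‖) * S + 4 * ‖V z‖ * S')
        ≤ d * ((2 * (K1 * ‖V z'‖) + 4 * ‖V z'‖) * (K1 * ‖V z‖) + 4 * ‖V z‖ * (K1 * ‖V z'‖)) := by
          gcongr
      _ = d * ((2 * K1 ^ 2 + 8 * K1) * (‖V z‖ * ‖V z'‖)) := by ring
  have hfirst : ‖(1 - z)⁻¹ - (1 - z')⁻¹‖ ≤ 8 * d * (‖V z‖ * ‖V z'‖) := by
    have h1 : (1 - z) ≠ 0 := sub_ne_zero.mpr (ne_one hE).symm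
    have h2 : (1 - z') ≠ 0 := sub_ne_zero.mpr (ne_one hE').symm
    have h3 : (1 - z)⁻¹ - (1 - z')⁻¹ = (z - z') * ((1 - z)⁻¹ * (1 - z')⁻¹) := by
      field_simp
      ring
    rw [h3, norm_mul, norm_mul, norm_inv, norm_inv, hdsq]
    have h4 := inv_t_le hz hE
    have h5 := inv_t_le hz' hE'
    calc d ^ 2 * (‖1 - z‖⁻¹ * ‖1 - z'‖⁻¹) ≤ d ^ 2 * ((2 * ‖V z‖) * (2 * ‖V z'‖)) := by gcongr
      _ = d * (4 * d * (‖V z‖ * ‖V z'‖)) := by ring
      _ ≤ d * (4 * 2 * (‖V z‖ * ‖V z'‖)) := by gcongr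
      _ = 8 * d * (‖V z‖ * ‖V z'‖) := by ring
  have hfin : V z - V z' = ((1 - z)⁻¹ - (1 - z')⁻¹) + (cc : ℂ) * (∑' j, W j z - ∑' j, W j z') := by
    unfold V; ring
  rw [hfin]
  refine (norm_add_le _ _).trans ?_
  rw [norm_mul, Complex.norm_real, Real.norm_of_nonneg hcc.le]
  have h9 : cc * ‖∑' j, W j z - ∑' j, W j z'‖ ≤
      cc * (d * ((2 * K1 ^ 2 + 8 * K1) * (‖V z‖ * ‖V z'‖))) := by gcongr
  unfold K2
  nlinarith

end PK
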